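import Mathlib
import Pool.Agent.Q236.CR.Stm
import Pool.Agent.H370R2.MV

/-! Mean squares of products of Dirichlet polynomials (statement `S_MVG` of
`Pool/Agent/Q236/CR/Stm.lean`). -/

set_option autoImplicit false

namespace Pool.Agent.V5helper43.CR

open Finset MeasureTheory Pool.Agent.Q236.CR

lemma nt_mul (τ : ℝ) (m n : ℕ) : nt τ (m * n) = nt τ m * nt τ n := by
  unfold nt
  push_cast
  exact Complex.natCast_mul_natCast_cpow m n _

lemma nt_one (τ : ℝ) : nt τ 1 = 1 := by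
  unfold nt
  simp

lemma nt_prod {ι : Type*} (s : Finset ι) (τ : ℝ) (v : ι → ℕ) :
    nt τ (∏ i ∈ s, v i) = ∏ i ∈ s, nt τ (v i) := by
  classical
  induction s using Finset.induction_on with
  | empty => simp [nt_one]
  | insert a s ha ih => rw [Finset.prod_insert ha, Finset.prod_insert ha, nt_mul, ih]

lemma nt_cont {n : ℕ} (hn : n ≠ 0) : Continuous (fun τ : ℝ => nt τ n) := by
  unfold nt
  apply Continuous.const_cpow
  · fun_prop
  · left
    exact_mod_cast hn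

/-- mean square of a sum over tuples -/
lemma tuple_mean {r : ℕ} (G : Fin r → ℕ → ℂ) (V : Finset (Fin r → ℕ)) (B : Finset ℕ) (X' Z : ℕ)
    (Λ : ℝ) (hΛ : 0 ≤ Λ) (hV : ∀ v ∈ V, v ∈ Fintype.piFinset (fun _ : Fin r => Finset.Icc 1 X'))
    (hG : ∀ v ∈ V, ∀ i, ‖G i (v i)‖ ≤ Λ)
    (hB : ∀ v ∈ V, ∏ i, v i ∈ B) (hBZ : B ⊆ Finset.Icc 1 Z) (a b : ℝ) (hab : a ≤ b) :
    ∫ τ in a..b, ‖∑ v ∈ V, (∏ i, G i (v i)) * nt τ (∏ i, v i)‖ ^ 2 ≤
      (b - a + 8 * Z * (1 + Real.log Z)) * (Λ ^ (2 * r) * ∑ m ∈ B, (tr r X' m : ℝ) ^ 2) := by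
  classical
  set c : ℕ → ℂ := fun m => ∑ v ∈ V.filter (fun v => ∏ i, v i = m), ∏ i, G i (v i) with hc
  have h1 : ∀ τ : ℝ, ∑ v ∈ V, (∏ i, G i (v i)) * nt τ (∏ i, v i) =
      ∑ m ∈ Finset.Icc 1 Z, c m * (m : ℂ) ^ (-(τ : ℂ) * Complex.I) := by
    intro τ
    rw [← Finset.sum_fiberwise_of_maps_to (s := V) (t := Finset.Icc 1 Z) (g := fun v => ∏ i, v i)
      (fun v hv => hBZ (hB v hv))]
    apply Finset.sum_congr rfl
    intro m _
    simp only [hc]
    rw [Finset.sum_mul]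
    apply Finset.sum_congr rfl
    intro v hv
    rw [(Finset.mem_filter.mp hv).2]
    rfl
  have hcm : ∀ m, ‖c m‖ ≤ if m ∈ B then Λ ^ r * tr r X' m else 0 := by
    intro m
    split_ifs with hm
    · simp only [hc]
      refine (norm_sum_le _ _).trans ?_
      calc ∑ v ∈ V.filter (fun v => ∏ i, v i = m), ‖∏ i, G i (v i)‖
          ≤ ∑ v ∈ V.filter (fun v => ∏ i, v i = m), Λ ^ r := by
            apply Finset.sum_le_sum
            intro v hv
            rw [norm_prod]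
            calc ∏ i, ‖G i (v i)‖ ≤ ∏ _i : Fin r, Λ :=
                  Finset.prod_le_prod (fun i _ => norm_nonneg _)
                    (fun i _ => hG v (Finset.mem_filter.mp hv).1 i)
              _ = Λ ^ r := by simp
        _ = (V.filter (fun v => ∏ i, v i = m)).card * Λ ^ r := by
            rw [Finset.sum_const, nsmul_eq_mul]
        _ ≤ tr r X' m * Λ ^ r := by
            apply mul_le_mul_of_nonneg_right _ (by positivity)
            unfold tr
            exact_mod_cast Finset.card_le_card (by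
              intro v hv
              rw [Finset.mem_filter] at hv ⊢
              exact ⟨hV v hv.1, hv.2⟩)
        _ = _ := mul_comm _ _
    · have : V.filter (fun v => ∏ i, v i = m) = ∅ := by
        apply Finset.filter_eq_empty_iff.mpr
        intro v hv h
        exact hm (h ▸ hB v hv)
      simp only [hc]
      rw [this]
      simp
  simp_rw [h1]
  refine (H370.mean_value c Z a b hab).trans ?_
  have hZ : 0 ≤ Real.log (Z : ℝ) := Real.log_natCast_nonneg Z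
  have hpos : 0 ≤ b - a + 8 * (Z : ℝ) * (1 + Real.log Z) := by
    have : 0 ≤ 8 * (Z : ℝ) * (1 + Real.log Z) := by positivity
    linarith
  apply mul_le_mul_of_nonneg_left _ hpos
  calc ∑ n ∈ Finset.Icc 1 Z, ‖c n‖ ^ 2 ≤
        ∑ n ∈ Finset.Icc 1 Z, (if n ∈ B then Λ ^ (2 * r) * (tr r X' n : ℝ) ^ 2 else 0) := by
        apply Finset.sum_le_sum
        intro n _
        have h2 := hcm n
        have h3 := pow_le_pow_left₀ (norm_nonneg _) h2 2
        refine h3.trans (le_of_eq ?_)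
        split_ifs
        · rw [mul_pow, ← pow_mul, mul_comm r 2]
        · simp
    _ = ∑ n ∈ B, Λ ^ (2 * r) * (tr r X' n : ℝ) ^ 2 := by
        rw [← Finset.sum_filter, Finset.filter_mem_eq_inter, Finset.inter_eq_right.mpr hBZ]
    _ = _ := by rw [Finset.mul_sum]

/-- the index of the cell of `n` -/
noncomputable def ix (H : ℝ) (n : ℕ) : ℕ := ⌊Real.log n * H⌋₊

lemma ix_iff {H : ℝ} (hH : 0 < H) {n l : ℕ} (hn : 1 ≤ n) :
    ix H n = l ↔ Real.exp (l / H) ≤ n ∧ (n : ℝ) < Real.exp ((l + 1) / H) := by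
  have hn0 : (0 : ℝ) < n := by exact_mod_cast hn
  have hlog : 0 ≤ Real.log n := Real.log_natCast_nonneg n
  unfold ix
  rw [Nat.floor_eq_iff (by positivity), ← Real.le_log_iff_exp_le hn0, ← Real.log_lt_iff_lt_exp hn0,
    div_le_iff₀ hH, lt_div_iff₀ hH]

/-- a cell is a block -/
lemma cell_eq {H : ℝ} (hH : 0 < H) {l x2 : ℕ} (hl : Real.exp ((l + 1) / H) ≤ x2) :
    (Finset.Icc 1 x2).filter (fun n => ix H n = l) =
      Finset.Ioc (⌈Real.exp (l / H)⌉₊ - 1) (⌈Real.exp ((l + 1) / H)⌉₊ - 1) := by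
  have hM : 1 ≤ ⌈Real.exp (l / H)⌉₊ := Nat.one_le_iff_ne_zero.mpr (by
    rw [Ne, Nat.ceil_eq_zero, not_le]; exact Real.exp_pos _)
  have hM' : 1 ≤ ⌈Real.exp ((l + 1) / H)⌉₊ := Nat.one_le_iff_ne_zero.mpr (by
    rw [Ne, Nat.ceil_eq_zero, not_le]; exact Real.exp_pos _)
  ext n
  rw [Finset.mem_filter, Finset.mem_Icc, Finset.mem_Ioc]
  constructor
  · rintro ⟨⟨h1, h2⟩, h3⟩
    rw [ix_iff hH h1] at h3
    have h4 := Nat.ceil_le.mpr h3.1
    have h5 := Nat.lt_ceil.mpr h3.2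
    omega
  · rintro ⟨h1, h2⟩
    have h3 : ⌈Real.exp (l / H)⌉₊ ≤ n := by omega
    have h4 : n < ⌈Real.exp ((l + 1) / H)⌉₊ := by omega
    have h5 : Real.exp (l / H) ≤ n := Nat.ceil_le.mp h3
    have h6 : (n : ℝ) < Real.exp ((l + 1) / H) := Nat.lt_ceil.mp h4
    have h7 : 1 ≤ n := by omega
    refine ⟨⟨h7, ?_⟩, (ix_iff hH h7).mpr ⟨h5, h6⟩⟩
    have : (n : ℝ) < x2 := lt_of_lt_of_le h6 hl
    exact_mod_cast this.le

lemma prod_poly {r : ℕ} (S : Fin r → Finset ℕ) (G : Fin r → ℕ → ℂ) (τ : ℝ) :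
    ∏ i, ∑ n ∈ S i, G i n * nt τ n =
      ∑ v ∈ Fintype.piFinset S, (∏ i, G i (v i)) * nt τ (∏ i, v i) := by
  rw [Finset.prod_univ_sum]
  apply Finset.sum_congr rfl
  intro v _
  rw [Finset.prod_mul_distrib, nt_prod]

lemma poly_cont (S : Finset ℕ) (hS : ∀ n ∈ S, n ≠ 0) (g : ℕ → ℂ) :
    Continuous (fun τ : ℝ => ∑ n ∈ S, g n * nt τ n) := by
  apply continuous_finsetSum
  intro n hn
  exact continuous_const.mul (nt_cont (hS n hn))

/-- one inner term -/
lemma inner_bound {r : ℕ} {H T0 T a b Λ L : ℝ} {X x2 K C : ℕ} (F : Fin r → ℕ → ℂ) (l : Fin r → ℕ)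
    (i0 : Fin r) (hH : 2 ≤ H) (hX : 1 ≤ X) (hx2 : x2 ≤ 9 * X)
    (hl : Real.exp ((∑ i, (l i : ℝ) + r) / H) ≤ x2)
    (hΛ : 1 ≤ Λ) (hL : 1 ≤ L) (hF : ∀ i, ∀ n ≤ x2, ‖F i n‖ ≤ Λ)
    (hgood : Good X T0 T K (F i0) ⌈Real.exp (l i0 / H)⌉₊)
    (hab : a ≤ b) (hba : b - a ≤ T) (hT : 0 ≤ T) (hτ : ∀ τ, a ≤ τ → τ ≤ b → T0 ≤ |τ| ∧ |τ| ≤ T)
    (hlog : 1 + Real.log (18 * X) ≤ L) (hlogX : 0 < Real.log X)
    (hDV : ∀ Y : ℕ, 1 ≤ Y → ∑ n ∈ Finset.Icc 1 Y, (tr r x2 n : ℝ) ^ 4 ≤ Y * (1 + Real.log Y) ^ C) :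
    ∫ τ in a..b, ‖∏ i, ∑ n ∈ (Finset.Icc 1 x2).filter (fun n => ix H n = l i), F i n * nt τ n‖ ^ 2 ≤
      ((X : ℝ) ^ 2 / Real.log X ^ K) * (2592 * L * (Λ ^ (2 * r) * L ^ C)) := by
  classical
  have hH0 : 0 < H := by linarith
  have hX0 : (1 : ℝ) ≤ X := by exact_mod_cast hX
  set S : Fin r → Finset ℕ := fun i => (Finset.Icc 1 x2).filter (fun n => ix H n = l i) with hS
  have hSpos : ∀ i, ∀ n ∈ S i, n ≠ 0 := by
    intro i n hn
    have := (Finset.mem_Icc.mp (Finset.mem_filter.mp hn).1).1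
    omega
  set e0 : ℝ := Real.exp (l i0 / H) with he0
  set M : ℕ := ⌈e0⌉₊ with hM
  have he01 : 1 ≤ e0 := Real.one_le_exp (by positivity)
  have hMge : e0 ≤ M := Nat.le_ceil _
  have hM1 : 1 ≤ M := by
    have : (1 : ℝ) ≤ M := he01.trans hMge
    exact_mod_cast this
  have hM0 : (0 : ℝ) < M := by exact_mod_cast hM1
  have hM2 : (M : ℝ) ≤ 2 * e0 := by
    have := Nat.ceil_lt_add_one (show 0 ≤ e0 by linarith)
    rw [← hM] at this
    linarith
  have hexp2 : Real.exp (1 / H) ≤ 2 := by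
    have h1 : 1 / H ≤ 1 / 2 := by
      apply div_le_div_of_nonneg_left <;> linarith
    have h2 : Real.exp (1 / H) ≤ Real.exp (1 / 2) := Real.exp_le_exp.mpr h1
    have h3 : Real.exp (1 / 2) ^ 2 ≤ 2 ^ 2 := by
      rw [← Real.exp_nat_mul]
      have := Real.exp_one_lt_d9
      norm_num
      linarith
    have h4 := abs_le_of_sq_le_sq h3 (by norm_num)
    exact h2.trans ((le_abs_self _).trans h4)
  -- sums of the others
  have hsum0 : ∑ i, (l i : ℝ) = l i0 + ∑ i ∈ Finset.univ.erase i0, (l i : ℝ) :=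
    (Finset.add_sum_erase _ _ (Finset.mem_univ i0)).symm
  have hr1 : (Finset.univ.erase i0).card = r - 1 := by
    rw [Finset.card_erase_of_mem (Finset.mem_univ _), Finset.card_univ, Fintype.card_fin]
  have hrpos : 1 ≤ r := by
    have := i0.2
    omega
  have hx2r : (x2 : ℝ) ≤ 9 * X := by exact_mod_cast hx2
  -- the cell of `i0`
  have hl0 : Real.exp ((l i0 + 1) / H) ≤ x2 := by
    refine le_trans (Real.exp_le_exp.mpr ?_) hl
    apply div_le_div_of_nonneg_right _ hH0.le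
    have h1 : (l i0 : ℝ) ≤ ∑ i, (l i : ℝ) :=
      Finset.single_le_sum (f := fun i => (l i : ℝ)) (fun i _ => Nat.cast_nonneg _) (Finset.mem_univ i0)
    have h2 : (1 : ℝ) ≤ r := by exact_mod_cast hrpos
    linarith
  have hD : ∀ τ, a ≤ τ → τ ≤ b → ‖∑ n ∈ S i0, F i0 n * nt τ n‖ ^ 2 * ((T + X / M) * (X / M)) ≤
      (X : ℝ) ^ 2 / Real.log X ^ K := by
    intro τ h1 h2
    simp only [hS]
    rw [cell_eq hH0 hl0]
    apply hgood
    · rw [← he0, ← hM]; omega
    · have h3 : ((⌈Real.exp ((l i0 + 1) / H)⌉₊ - 1 : ℕ) : ℝ) < 2 * M := by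
        have h4 := Nat.ceil_lt_add_one (show 0 ≤ Real.exp ((l i0 + 1) / H) from (Real.exp_pos _).le)
        have h5 : Real.exp ((l i0 + 1) / H) ≤ 2 * e0 := by
          rw [add_div, Real.exp_add, ← he0]
          nlinarith
        have h6 : 1 ≤ ⌈Real.exp ((l i0 + 1) / H)⌉₊ := Nat.one_le_iff_ne_zero.mpr (by
          rw [Ne, Nat.ceil_eq_zero, not_le]; exact Real.exp_pos _)
        rw [Nat.cast_sub h6]
        push_cast
        linarith
      exact_mod_cast h3.le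
    · exact (hτ τ h1 h2).1
    · exact (hτ τ h1 h2).2
  -- the others
  set S' : Fin r → Finset ℕ := fun i => if i = i0 then {1} else S i with hS'
  set G : Fin r → ℕ → ℂ := fun i => if i = i0 then (fun _ => 1) else F i with hG
  set Z : ℕ := ⌊18 * (X : ℝ) / M⌋₊ with hZ
  have hE : ∀ τ : ℝ, ∏ i ∈ Finset.univ.erase i0, ∑ n ∈ S i, F i n * nt τ n =
      ∑ v ∈ Fintype.piFinset S', (∏ i, G i (v i)) * nt τ (∏ i, v i) := by
    intro τ
    rw [← prod_poly, ← Finset.mul_prod_erase Finset.univ _ (Finset.mem_univ i0)]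
    have h1 : ∑ n ∈ S' i0, G i0 n * nt τ n = 1 := by
      simp [hS', hG, nt_one]
    rw [h1, one_mul]
    apply Finset.prod_congr rfl
    intro i hi
    have hne := Finset.ne_of_mem_erase hi
    simp [hS', hG, hne]
  have hx21 : 1 ≤ x2 := by
    have : (1 : ℝ) ≤ x2 := by
      refine le_trans (Real.one_le_exp ?_) hl0
      positivity
    exact_mod_cast this
  have hVmem : ∀ v ∈ Fintype.piFinset S', v ∈ Fintype.piFinset (fun _ : Fin r => Finset.Icc 1 x2) := by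
    intro v hv
    rw [Fintype.mem_piFinset] at hv ⊢
    intro i
    have := hv i
    by_cases hi : i = i0
    · simp only [hS', hi, if_true, Finset.mem_singleton] at this
      rw [hi, this, Finset.mem_Icc]
      exact ⟨le_rfl, hx21⟩
    · simp only [hS', hi, if_false] at this
      exact (Finset.mem_filter.mp this).1
  have hVG : ∀ v ∈ Fintype.piFinset S', ∀ i, ‖G i (v i)‖ ≤ Λ := by
    intro v hv i
    by_cases hi : i = i0
    · simp only [hG, hi, if_true, norm_one]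
      exact hΛ
    · simp only [hG, hi, if_false]
      apply hF
      exact (Finset.mem_Icc.mp ((Fintype.mem_piFinset.mp (hVmem v hv)) i)).2
  have hVZ : ∀ v ∈ Fintype.piFinset S', ∏ i, v i ∈ Finset.Icc 1 Z := by
    intro v hv
    rw [Finset.mem_Icc]
    have hv1 := Fintype.mem_piFinset.mp (hVmem v hv)
    refine ⟨Finset.one_le_prod' (fun i _ => (Finset.mem_Icc.mp (hv1 i)).1), ?_⟩
    apply Nat.le_floor
    rw [← Finset.mul_prod_erase Finset.univ _ (Finset.mem_univ i0)]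
    have h1 : v i0 = 1 := by
      have := Fintype.mem_piFinset.mp hv i0
      simpa [hS'] using this
    rw [h1, one_mul]
    push_cast
    have h2 : ∏ i ∈ Finset.univ.erase i0, (v i : ℝ) ≤
        ∏ i ∈ Finset.univ.erase i0, Real.exp ((l i + 1) / H) := by
      apply Finset.prod_le_prod
      · intro i _; positivity
      · intro i hi
        have hne := Finset.ne_of_mem_erase hi
        have h3 := Fintype.mem_piFinset.mp hv i
        simp only [hS', hne, if_false] at h3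
        have h4 := Finset.mem_filter.mp h3
        exact ((ix_iff hH0 (Finset.mem_Icc.mp h4.1).1).mp h4.2).2.le
    refine h2.trans ?_
    rw [← Real.exp_sum, ← Finset.sum_div, Finset.sum_add_distrib, Finset.sum_const, hr1, nsmul_eq_mul,
      mul_one, Nat.cast_sub hrpos]
    rw [le_div_iff₀ hM0]
    have h5 : Real.exp ((∑ i ∈ Finset.univ.erase i0, (l i : ℝ) + ((r : ℝ) - (1 : ℕ))) / H) * e0 ≤ 9 * X := by
      rw [he0, ← Real.exp_add]
      refine le_trans (le_trans (Real.exp_le_exp.mpr ?_) hl) hx2r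
      rw [← add_div]
      apply div_le_div_of_nonneg_right _ hH0.le
      rw [hsum0]
      push_cast
      linarith
    have h6 : 0 ≤ Real.exp ((∑ i ∈ Finset.univ.erase i0, (l i : ℝ) + ((r : ℝ) - (1 : ℕ))) / H) :=
      (Real.exp_pos _).le
    calc _ ≤ Real.exp ((∑ i ∈ Finset.univ.erase i0, (l i : ℝ) + ((r : ℝ) - (1 : ℕ))) / H) * (2 * e0) :=
          mul_le_mul_of_nonneg_left hM2 h6
      _ ≤ 18 * X := by linarith
  have hmean := tuple_mean G (Fintype.piFinset S') (Finset.Icc 1 Z) x2 Z Λ (by linarith) hVmem hVG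
    hVZ (Finset.Subset.refl _) a b hab
  simp_rw [← hE] at hmean
  have hXM : 0 < (X : ℝ) / M := by positivity
  have hM18 : (M : ℝ) ≤ 18 * X := by
    have h1 : e0 ≤ Real.exp ((l i0 + 1) / H) := by
      rw [he0]
      apply Real.exp_le_exp.mpr
      gcongr
      linarith
    linarith
  have hZ1 : 1 ≤ Z := by
    apply Nat.le_floor
    rw [Nat.cast_one, le_div_iff₀ hM0]
    linarith
  have hZle : (Z : ℝ) ≤ 18 * (X / M) := by
    have := Nat.floor_le (show 0 ≤ 18 * (X : ℝ) / M by positivity)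
    rw [← hZ] at this
    linarith [mul_div_assoc (18 : ℝ) X M]
  have hZlog : 1 + Real.log Z ≤ L := by
    refine le_trans ?_ hlog
    gcongr
    refine hZle.trans ?_
    have : (X : ℝ) / M ≤ X := div_le_self (by linarith) (by exact_mod_cast hM1)
    linarith
  have hZlog0 : 0 ≤ Real.log (Z : ℝ) := Real.log_natCast_nonneg Z
  have hsum2 : ∑ m ∈ Finset.Icc 1 Z, (tr r x2 m : ℝ) ^ 2 ≤ 18 * (X / M) * L ^ C := by
    calc ∑ m ∈ Finset.Icc 1 Z, (tr r x2 m : ℝ) ^ 2 ≤ ∑ m ∈ Finset.Icc 1 Z, (tr r x2 m : ℝ) ^ 4 := by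
          apply Finset.sum_le_sum
          intro m _
          have : (tr r x2 m) ^ 2 ≤ (tr r x2 m) ^ 4 := by
            rcases Nat.eq_zero_or_pos (tr r x2 m) with h | h
            · rw [h]; norm_num
            · exact Nat.pow_le_pow_right h (by norm_num)
          exact_mod_cast this
      _ ≤ Z * (1 + Real.log Z) ^ C := hDV Z hZ1
      _ ≤ 18 * (X / M) * L ^ C := by gcongr
  have hEint : ∫ τ in a..b, ‖∏ i ∈ Finset.univ.erase i0, ∑ n ∈ S i, F i n * nt τ n‖ ^ 2 ≤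
      ((T + X / M) * (X / M)) * (2592 * L * (Λ ^ (2 * r) * L ^ C)) := by
    refine hmean.trans ?_
    have h1 : b - a + 8 * (Z : ℝ) * (1 + Real.log Z) ≤ 144 * L * (T + X / M) := by
      have h2 : 8 * (Z : ℝ) * (1 + Real.log Z) ≤ 8 * (18 * (X / M)) * L := by gcongr
      have h3 : T ≤ 144 * L * T := by nlinarith
      nlinarith
    have h4 : Λ ^ (2 * r) * ∑ m ∈ Finset.Icc 1 Z, (tr r x2 m : ℝ) ^ 2 ≤
        Λ ^ (2 * r) * (18 * (X / M) * L ^ C) := by gcongr
    have h5 : 0 ≤ b - a + 8 * (Z : ℝ) * (1 + Real.log Z) := by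
      have : 0 ≤ 8 * (Z : ℝ) * (1 + Real.log Z) := by positivity
      linarith
    calc _ ≤ (144 * L * (T + X / M)) * (Λ ^ (2 * r) * (18 * (X / M) * L ^ C)) := by
          apply mul_le_mul h1 h4 (by positivity) (by positivity)
      _ = _ := by ring
  -- conclusion
  set cc' : ℝ := (T + X / M) * (X / M) with hcc
  have hcc0 : 0 < cc' := by positivity
  have hcont : ∀ i, Continuous (fun τ : ℝ => ∑ n ∈ S i, F i n * nt τ n) := fun i =>
    poly_cont (S i) (hSpos i) (F i)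
  have hEc : Continuous (fun τ : ℝ => ∏ i ∈ Finset.univ.erase i0, ∑ n ∈ S i, F i n * nt τ n) :=
    continuous_finsetProd _ fun i _ => hcont i
  have hAc : Continuous (fun τ : ℝ => ∏ i, ∑ n ∈ S i, F i n * nt τ n) :=
    continuous_finsetProd _ fun i _ => hcont i
  have hkey : cc' * ∫ τ in a..b, ‖∏ i, ∑ n ∈ S i, F i n * nt τ n‖ ^ 2 ≤
      ((X : ℝ) ^ 2 / Real.log X ^ K) *
        ∫ τ in a..b, ‖∏ i ∈ Finset.univ.erase i0, ∑ n ∈ S i, F i n * nt τ n‖ ^ 2 := by
    rw [← intervalIntegral.integral_const_mul, ← intervalIntegral.integral_const_mul]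
    apply intervalIntegral.integral_mono_on hab
    · exact (continuous_const.mul (hAc.norm.pow 2)).intervalIntegrable _ _
    · exact (continuous_const.mul (hEc.norm.pow 2)).intervalIntegrable _ _
    · intro τ hτ'
      rw [← Finset.mul_prod_erase Finset.univ _ (Finset.mem_univ i0), norm_mul, mul_pow]
      have h1 := hD τ hτ'.1 hτ'.2
      have h2 : 0 ≤ ‖∏ i ∈ Finset.univ.erase i0, ∑ n ∈ S i, F i n * nt τ n‖ ^ 2 := by positivity
      have h3 := mul_le_mul_of_nonneg_right h1 h2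
      refine le_trans (le_of_eq ?_) h3
      rw [hcc]
      ring
  have hε : 0 ≤ (X : ℝ) ^ 2 / Real.log X ^ K := by positivity
  have hfin : cc' * ∫ τ in a..b, ‖∏ i, ∑ n ∈ S i, F i n * nt τ n‖ ^ 2 ≤
      cc' * (((X : ℝ) ^ 2 / Real.log X ^ K) * (2592 * L * (Λ ^ (2 * r) * L ^ C))) := by
    refine hkey.trans ((mul_le_mul_of_nonneg_left hEint hε).trans (le_of_eq ?_))
    ring
  exact le_of_mul_le_mul_left hfin hcc0

/-- inner tuples of cells -/
def Inn {r : ℕ} (H : ℝ) (x1 x2 : ℕ) (l : Fin r → ℕ) : Prop :=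
  (x1 : ℝ) < Real.exp ((∑ i, (l i : ℝ)) / H) ∧ Real.exp ((∑ i, (l i : ℝ) + r) / H) ≤ x2

lemma prod_bounds {r : ℕ} {H : ℝ} (hH : 0 < H) {x2 : ℕ} {v : Fin r → ℕ}
    (hv : v ∈ Fintype.piFinset (fun _ : Fin r => Finset.Icc 1 x2)) :
    Real.exp ((∑ i, (ix H (v i) : ℝ)) / H) ≤ ((∏ i, v i : ℕ) : ℝ) ∧
    ((∏ i, v i : ℕ) : ℝ) ≤ Real.exp ((∑ i, (ix H (v i) : ℝ) + r) / H) := by
  rw [Fintype.mem_piFinset] at hv
  have h1 : ∀ i, Real.exp ((ix H (v i) : ℝ) / H) ≤ v i ∧ (v i : ℝ) < Real.exp (((ix H (v i) : ℝ) + 1) / H) :=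
    fun i => (ix_iff hH (Finset.mem_Icc.mp (hv i)).1).mp rfl
  push_cast
  constructor
  · rw [Finset.sum_div, Real.exp_sum]
    exact Finset.prod_le_prod (fun i _ => (Real.exp_pos _).le) (fun i _ => (h1 i).1)
  · have h2 : ∑ i, (ix H (v i) : ℝ) + r = ∑ i, ((ix H (v i) : ℝ) + 1) := by
      rw [Finset.sum_add_distrib]
      simp
    rw [h2, Finset.sum_div, Real.exp_sum]
    exact Finset.prod_le_prod (fun i _ => Nat.cast_nonneg _) (fun i _ => (h1 i).2.le)

open Classical in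
lemma PD_eq {r : ℕ} (F : Fin r → ℕ → ℂ) {H : ℝ} (hH : 0 < H) (x1 x2 N : ℕ)
    (hN : Real.log x2 * H < N) (τ : ℝ) :
    PD F x1 x2 τ = ∑ l ∈ (Fintype.piFinset (fun _ : Fin r => Finset.range N)).filter (Inn H x1 x2),
        ∏ i, ∑ n ∈ (Finset.Icc 1 x2).filter (fun n => ix H n = l i), F i n * nt τ n +
      ∑ v ∈ ((Fintype.piFinset (fun _ : Fin r => Finset.Icc 1 x2)).filter
        (fun v => x1 < ∏ i, v i ∧ ∏ i, v i ≤ x2)).filter (fun v => ¬ Inn H x1 x2 (fun i => ix H (v i))),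
        (∏ i, F i (v i)) * nt τ (∏ i, v i) := by
  unfold PD
  rw [← Finset.sum_filter_add_sum_filter_not _ (fun v => Inn H x1 x2 (fun i => ix H (v i)))]
  congr 1
  have h1 : (((Fintype.piFinset (fun _ : Fin r => Finset.Icc 1 x2)).filter
        (fun v => x1 < ∏ i, v i ∧ ∏ i, v i ≤ x2)).filter (fun v => Inn H x1 x2 (fun i => ix H (v i)))) =
      ((Fintype.piFinset (fun _ : Fin r => Finset.Icc 1 x2)).filter
        (fun v => Inn H x1 x2 (fun i => ix H (v i)))) := by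
    ext v
    simp only [Finset.mem_filter]
    constructor
    · rintro ⟨⟨h1, _⟩, h3⟩
      exact ⟨h1, h3⟩
    · rintro ⟨h1, h3⟩
      obtain ⟨h4, h5⟩ := prod_bounds hH h1
      refine ⟨⟨h1, ?_, ?_⟩, h3⟩
      · have := lt_of_lt_of_le h3.1 h4
        exact_mod_cast this
      · have := h5.trans h3.2
        exact_mod_cast this
  rw [h1]
  rw [← Finset.sum_fiberwise_of_maps_to
    (t := (Fintype.piFinset (fun _ : Fin r => Finset.range N)).filter (Inn H x1 x2))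
    (g := fun v : Fin r → ℕ => fun i => ix H (v i))]
  · apply Finset.sum_congr rfl
    intro l hl
    rw [prod_poly]
    apply Finset.sum_congr _ (fun _ _ => rfl)
    ext v
    simp only [Finset.mem_filter, Fintype.mem_piFinset]
    constructor
    · rintro ⟨⟨h2, _⟩, h3⟩ i
      exact ⟨h2 i, congrFun h3 i⟩
    · intro h2
      have h3 : (fun i => ix H (v i)) = l := funext fun i => (h2 i).2
      refine ⟨⟨fun i => (h2 i).1, ?_⟩, h3⟩
      rw [h3]
      exact (Finset.mem_filter.mp hl).2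
  · intro v hv
    rw [Finset.mem_filter] at hv
    rw [Finset.mem_filter, Fintype.mem_piFinset]
    refine ⟨fun i => ?_, hv.2⟩
    rw [Finset.mem_range]
    have h2 := Finset.mem_Icc.mp ((Fintype.mem_piFinset.mp hv.1) i)
    have h3 : (0 : ℝ) < v i := by exact_mod_cast h2.1
    have h4 : Real.log (v i) ≤ Real.log x2 := Real.log_le_log h3 (by exact_mod_cast h2.2)
    unfold ix
    rw [Nat.floor_lt (mul_nonneg (Real.log_natCast_nonneg _) hH.le)]
    have h5 : Real.log (v i) * H ≤ Real.log x2 * H := mul_le_mul_of_nonneg_right h4 hH.le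
    linarith

/-- the products in the outer part -/
noncomputable def OB (r : ℕ) (H : ℝ) (x1 x2 : ℕ) : Finset ℕ :=
  (Finset.Ioc x1 ⌊Real.exp (r / H) * x1⌋₊ ∪ Finset.Ioc ⌊Real.exp (-(r / H)) * x2⌋₊ x2) ∩ Finset.Ioc x1 x2

lemma OB_mem {r : ℕ} {H : ℝ} (hH : 0 < H) {x1 x2 : ℕ} {v : Fin r → ℕ}
    (hv : v ∈ Fintype.piFinset (fun _ : Fin r => Finset.Icc 1 x2))
    (h1 : x1 < ∏ i, v i) (h2 : ∏ i, v i ≤ x2) (h3 : ¬ Inn H x1 x2 (fun i => ix H (v i))) :
    ∏ i, v i ∈ OB r H x1 x2 := by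
  obtain ⟨h4, h5⟩ := prod_bounds hH hv
  unfold OB
  rw [Finset.mem_inter]
  refine ⟨?_, Finset.mem_Ioc.mpr ⟨h1, h2⟩⟩
  rw [Finset.mem_union, Finset.mem_Ioc, Finset.mem_Ioc]
  unfold Inn at h3
  by_cases h6 : (x1 : ℝ) < Real.exp ((∑ i, (ix H (v i) : ℝ)) / H)
  · right
    refine ⟨?_, h2⟩
    have h7 : (x2 : ℝ) < Real.exp ((∑ i, (ix H (v i) : ℝ) + r) / H) := by
      by_contra h
      exact h3 ⟨h6, not_lt.mp h⟩
    rw [Nat.floor_lt (by positivity)]
    refine lt_of_lt_of_le ?_ h4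
    rw [add_div, Real.exp_add] at h7
    rw [Real.exp_neg, inv_mul_lt_iff₀ (Real.exp_pos _), mul_comm]
    exact h7
  · left
    refine ⟨h1, ?_⟩
    apply Nat.le_floor
    refine h5.trans ?_
    rw [add_div, Real.exp_add, mul_comm]
    exact mul_le_mul_of_nonneg_left (not_lt.mp h6) (Real.exp_pos _).le

lemma OB_card {r X : ℕ} {H : ℝ} (hH : 0 < H) (hrH : (r : ℝ) / H ≤ 1) {x1 x2 : ℕ} (hx2 : x2 ≤ 9 * X) :
    ((OB r H x1 x2).card : ℝ) ≤ 27 * r * X / H + 1 := by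
  have hx2r : (x2 : ℝ) ≤ 9 * X := by exact_mod_cast hx2
  have hrH0 : 0 ≤ (r : ℝ) / H := by positivity
  by_cases h : x2 ≤ x1
  · have : OB r H x1 x2 = ∅ := by
      unfold OB
      rw [Finset.Ioc_eq_empty (by omega : ¬ x1 < x2), Finset.inter_empty]
    rw [this, Finset.card_empty, Nat.cast_zero]
    positivity
  · push Not at h
    have hx1r : (x1 : ℝ) ≤ 9 * X := by
      have : (x1 : ℝ) < x2 := by exact_mod_cast h
      linarith
    have h1 : (OB r H x1 x2).card ≤ (⌊Real.exp (r / H) * x1⌋₊ - x1) + (x2 - ⌊Real.exp (-(r / H)) * x2⌋₊) := by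
      refine (Finset.card_le_card Finset.inter_subset_left).trans ?_
      refine (Finset.card_union_le _ _).trans ?_
      rw [Nat.card_Ioc, Nat.card_Ioc]
    have h2 : ((⌊Real.exp (r / H) * x1⌋₊ - x1 : ℕ) : ℝ) ≤ 2 * (r / H) * (9 * X) := by
      have h3 : x1 ≤ ⌊Real.exp (r / H) * x1⌋₊ := by
        apply Nat.le_floor
        have := Real.one_le_exp hrH0
        exact le_mul_of_one_le_left (Nat.cast_nonneg _) this
      rw [Nat.cast_sub h3]
      have h4 := Nat.floor_le (show 0 ≤ Real.exp (r / H) * (x1 : ℝ) by positivity)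
      have h5 : Real.exp (r / H) ≤ 1 + 2 * (r / H) := by
        have h := Real.abs_exp_sub_one_le (x := (r : ℝ) / H) (by rw [abs_of_nonneg hrH0]; exact hrH)
        rw [abs_of_nonneg hrH0] at h
        have := le_abs_self (Real.exp (r / H) - 1)
        linarith
      have h6 : Real.exp (r / H) * x1 ≤ (1 + 2 * (r / H)) * x1 := by gcongr
      have h7 : 2 * ((r : ℝ) / H) * x1 ≤ 2 * (r / H) * (9 * X) := by gcongr
      linarith
    have h3 : ((x2 - ⌊Real.exp (-(r / H)) * x2⌋₊ : ℕ) : ℝ) ≤ (r / H) * (9 * X) + 1 := by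
      have h4 : ⌊Real.exp (-(r / H)) * x2⌋₊ ≤ x2 := by
        apply Nat.floor_le_of_le
        apply mul_le_of_le_one_left (Nat.cast_nonneg _)
        rw [Real.exp_le_one_iff]
        linarith
      rw [Nat.cast_sub h4]
      have h5 := Nat.lt_floor_add_one (Real.exp (-(r / H)) * (x2 : ℝ))
      have h6 := Real.add_one_le_exp (-((r : ℝ) / H))
      have h7 : (-((r : ℝ) / H) + 1) * x2 ≤ Real.exp (-(r / H)) * x2 := by gcongr
      have h8 : ((r : ℝ) / H) * x2 ≤ (r / H) * (9 * X) := by gcongr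
      linarith
    have h4 : ((OB r H x1 x2).card : ℝ) ≤ 2 * (r / H) * (9 * X) + ((r / H) * (9 * X) + 1) := by
      refine le_trans ?_ (add_le_add h2 h3)
      exact_mod_cast h1
    refine h4.trans (le_of_eq ?_)
    ring

open Classical in
/-- the whole mean square, with explicit bounds -/
lemma whole {r : ℕ} {H T0 T a b L lam : ℝ} {X x1 x2 K C N : ℕ} (hr : 1 ≤ r) (F : Fin r → ℕ → ℂ)
    (hH : 2 ≤ H) (hrH : (r : ℝ) / H ≤ 1) (hX : 1 ≤ X) (hx1 : X ≤ x1) (hx2 : x2 ≤ 9 * X) (hL : 1 ≤ L)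
    (hlam : 0 < lam)
    (hN : Real.log x2 * H < N)
    (hF : ∀ i, ∀ n ≤ x2, ‖F i n‖ ≤ L)
    (hgood : ∀ M : Fin r → ℕ, (∀ i, 1 ≤ M i) → X ≤ ∏ i, M i → ∏ i, M i ≤ 18 ^ r * X →
      ∃ i, Good X T0 T K (F i) (M i))
    (hab : a ≤ b) (hba : b - a ≤ T) (hT : 0 ≤ T) (hTX : T ≤ X)
    (hτ : ∀ τ, a ≤ τ → τ ≤ b → T0 ≤ |τ| ∧ |τ| ≤ T)
    (hlog : 1 + Real.log (18 * X) ≤ L) (hlogX : 0 < Real.log X)
    (hDV : ∀ Y : ℕ, 1 ≤ Y → ∑ n ∈ Finset.Icc 1 Y, (tr r x2 n : ℝ) ^ 4 ≤ Y * (1 + Real.log Y) ^ C) :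
    ∫ τ in a..b, ‖PD F x1 x2 τ‖ ^ 2 ≤
      2 * ((N : ℝ) ^ (2 * r) * (((X : ℝ) ^ 2 / Real.log X ^ K) * (2592 * L * (L ^ (2 * r) * L ^ C)))) +
      2 * ((X + 72 * X * L) * (L ^ (2 * r) * (lam * (27 * r * X / H + 1) + lam⁻¹ * (9 * X * L ^ C)))) := by
  have hH0 : 0 < H := by linarith
  have hXr : (1 : ℝ) ≤ X := by exact_mod_cast hX
  set Ls := (Fintype.piFinset (fun _ : Fin r => Finset.range N)).filter (Inn H x1 x2) with hLs
  set V := ((Fintype.piFinset (fun _ : Fin r => Finset.Icc 1 x2)).filter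
        (fun v => x1 < ∏ i, v i ∧ ∏ i, v i ≤ x2)).filter (fun v => ¬ Inn H x1 x2 (fun i => ix H (v i)))
    with hV
  set A : (Fin r → ℕ) → ℝ → ℂ := fun l τ =>
    ∏ i, ∑ n ∈ (Finset.Icc 1 x2).filter (fun n => ix H n = l i), F i n * nt τ n with hA
  set R : ℝ → ℂ := fun τ => ∑ v ∈ V, (∏ i, F i (v i)) * nt τ (∏ i, v i) with hR
  have hPD : ∀ τ, PD F x1 x2 τ = ∑ l ∈ Ls, A l τ + R τ := fun τ => PD_eq F hH0 x1 x2 N hN τ
  have hAc : ∀ l, Continuous (A l) := by
    intro l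
    apply continuous_finsetProd
    intro i _
    apply poly_cont
    intro n hn
    have := (Finset.mem_Icc.mp (Finset.mem_filter.mp hn).1).1
    omega
  have hRc : Continuous R := by
    apply continuous_finsetSum
    intro v hv
    apply continuous_const.mul
    apply nt_cont
    have h1 := Fintype.mem_piFinset.mp (Finset.mem_filter.mp (Finset.mem_filter.mp hv).1).1
    have : 1 ≤ ∏ i, v i := Finset.one_le_prod' (fun i _ => (Finset.mem_Icc.mp (h1 i)).1)
    omega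
  -- inner terms
  have hinner : ∀ l ∈ Ls, ∫ τ in a..b, ‖A l τ‖ ^ 2 ≤
      ((X : ℝ) ^ 2 / Real.log X ^ K) * (2592 * L * (L ^ (2 * r) * L ^ C)) := by
    intro l hl
    have hl2 := (Finset.mem_filter.mp hl).2
    -- the good factor
    have hM1 : ∀ i, 1 ≤ ⌈Real.exp ((l i : ℝ) / H)⌉₊ := fun i => Nat.one_le_iff_ne_zero.mpr (by
      rw [Ne, Nat.ceil_eq_zero, not_le]; exact Real.exp_pos _)
    have hprodexp : ∏ i, Real.exp ((l i : ℝ) / H) = Real.exp ((∑ i, (l i : ℝ)) / H) := by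
      rw [Finset.sum_div, Real.exp_sum]
    have hlow : X ≤ ∏ i, ⌈Real.exp ((l i : ℝ) / H)⌉₊ := by
      have h1 : (X : ℝ) ≤ ((∏ i, ⌈Real.exp ((l i : ℝ) / H)⌉₊ : ℕ) : ℝ) := by
        push_cast
        have h2 : ∏ i, Real.exp ((l i : ℝ) / H) ≤ ∏ i, (⌈Real.exp ((l i : ℝ) / H)⌉₊ : ℝ) :=
          Finset.prod_le_prod (fun i _ => (Real.exp_pos _).le) (fun i _ => Nat.le_ceil _)
        rw [hprodexp] at h2
        have h3 : (X : ℝ) ≤ x1 := by exact_mod_cast hx1
        linarith [hl2.1]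
      exact_mod_cast h1
    have hup : ∏ i, ⌈Real.exp ((l i : ℝ) / H)⌉₊ ≤ 18 ^ r * X := by
      have h1 : ((∏ i, ⌈Real.exp ((l i : ℝ) / H)⌉₊ : ℕ) : ℝ) ≤ 2 ^ r * (9 * X) := by
        push_cast
        have h2 : ∏ i, (⌈Real.exp ((l i : ℝ) / H)⌉₊ : ℝ) ≤ ∏ i, (2 * Real.exp ((l i : ℝ) / H)) := by
          apply Finset.prod_le_prod (fun i _ => Nat.cast_nonneg _)
          intro i _
          have h3 : 1 ≤ Real.exp ((l i : ℝ) / H) := Real.one_le_exp (by positivity)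
          have h4 := Nat.ceil_lt_add_one (show 0 ≤ Real.exp ((l i : ℝ) / H) by linarith)
          linarith
        rw [Finset.prod_mul_distrib, hprodexp, Finset.prod_const, Finset.card_univ, Fintype.card_fin] at h2
        refine h2.trans ?_
        gcongr
        have h5 : Real.exp ((∑ i, (l i : ℝ)) / H) ≤ Real.exp ((∑ i, (l i : ℝ) + r) / H) := by
          apply Real.exp_le_exp.mpr
          gcongr
          linarith [(Nat.cast_nonneg r : (0 : ℝ) ≤ r)]
        have h6 : (x2 : ℝ) ≤ 9 * X := by exact_mod_cast hx2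
        linarith [hl2.2]
      have h2 : (2 : ℝ) ^ r * (9 * X) ≤ 18 ^ r * X := by
        have h3 : (9 : ℝ) ≤ 9 ^ r := by
          calc (9 : ℝ) = 9 ^ 1 := by norm_num
            _ ≤ 9 ^ r := pow_le_pow_right₀ (by norm_num) hr
        have h4 : (18 : ℝ) ^ r = 2 ^ r * 9 ^ r := by rw [← mul_pow]; norm_num
        rw [h4]
        have h5 : (0 : ℝ) ≤ 2 ^ r * X := by positivity
        nlinarith
      have h3 := h1.trans h2
      exact_mod_cast h3
    obtain ⟨i0, hi0⟩ := hgood (fun i => ⌈Real.exp ((l i : ℝ) / H)⌉₊) hM1 hlow hup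
    exact inner_bound F l i0 hH hX hx2 hl2.2 hL hL hF hi0 hab hba hT hτ hlog hlogX hDV
  have hcardL : (Ls.card : ℝ) ≤ (N : ℝ) ^ r := by
    have h1 : Ls.card ≤ N ^ r := by
      refine (Finset.card_filter_le _ _).trans ?_
      rw [Fintype.card_piFinset]
      simp
    exact_mod_cast h1
  set B0 : ℝ := ((X : ℝ) ^ 2 / Real.log X ^ K) * (2592 * L * (L ^ (2 * r) * L ^ C)) with hB0
  have hB00 : 0 ≤ B0 := by positivity
  have hin : ∫ τ in a..b, ‖∑ l ∈ Ls, A l τ‖ ^ 2 ≤ (N : ℝ) ^ (2 * r) * B0 := by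
    calc ∫ τ in a..b, ‖∑ l ∈ Ls, A l τ‖ ^ 2 ≤ ∫ τ in a..b, (Ls.card : ℝ) * ∑ l ∈ Ls, ‖A l τ‖ ^ 2 := by
          apply intervalIntegral.integral_mono_on hab
          · exact ((continuous_finsetSum _ fun l _ => hAc l).norm.pow 2).intervalIntegrable _ _
          · exact (continuous_const.mul (continuous_finsetSum _ fun l _ => (hAc l).norm.pow 2)).intervalIntegrable _ _
          · intro τ _
            refine (pow_le_pow_left₀ (norm_nonneg _) (norm_sum_le _ _) 2).trans ?_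
            exact sq_sum_le_card_mul_sum_sq
      _ = (Ls.card : ℝ) * ∑ l ∈ Ls, ∫ τ in a..b, ‖A l τ‖ ^ 2 := by
          rw [intervalIntegral.integral_const_mul, intervalIntegral.integral_finsetSum]
          intro l _
          exact ((hAc l).norm.pow 2).intervalIntegrable _ _
      _ ≤ (Ls.card : ℝ) * ∑ l ∈ Ls, B0 := by
          gcongr with l hl
          exact hinner l hl
      _ = (Ls.card : ℝ) * (Ls.card : ℝ) * B0 := by
          rw [Finset.sum_const, nsmul_eq_mul]; ring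
      _ ≤ (N : ℝ) ^ r * (N : ℝ) ^ r * B0 := by gcongr
      _ = _ := by rw [← pow_add, two_mul]
  -- outer terms
  have hout : ∫ τ in a..b, ‖R τ‖ ^ 2 ≤ (X + 72 * X * L) *
      (L ^ (2 * r) * (lam * (27 * r * X / H + 1) + lam⁻¹ * (9 * X * L ^ C))) := by
    have hVm : ∀ v ∈ V, v ∈ Fintype.piFinset (fun _ : Fin r => Finset.Icc 1 x2) := fun v hv =>
      (Finset.mem_filter.mp (Finset.mem_filter.mp hv).1).1
    have hOBZ : OB r H x1 x2 ⊆ Finset.Icc 1 (9 * X) := by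
      intro m hm
      have := Finset.mem_Ioc.mp (Finset.mem_inter.mp hm).2
      rw [Finset.mem_Icc]
      omega
    have h1 := tuple_mean F V (OB r H x1 x2) x2 (9 * X) L (by linarith) hVm
      (fun v hv i => hF i _ (Finset.mem_Icc.mp ((Fintype.mem_piFinset.mp (hVm v hv)) i)).2)
      (fun v hv => OB_mem hH0 (hVm v hv) (Finset.mem_filter.mp (Finset.mem_filter.mp hv).1).2.1
        (Finset.mem_filter.mp (Finset.mem_filter.mp hv).1).2.2 (Finset.mem_filter.mp hv).2)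
      hOBZ a b hab
    have hlog9 : 1 + Real.log ((9 * X : ℕ) : ℝ) ≤ L := by
      refine le_trans ?_ hlog
      push_cast
      gcongr
      norm_num
    have hlog90 : 0 ≤ Real.log ((9 * X : ℕ) : ℝ) := Real.log_natCast_nonneg _
    refine h1.trans ?_
    have h2 : b - a + 8 * ((9 * X : ℕ) : ℝ) * (1 + Real.log ((9 * X : ℕ) : ℝ)) ≤ X + 72 * X * L := by
      have h3 : 8 * ((9 * X : ℕ) : ℝ) * (1 + Real.log ((9 * X : ℕ) : ℝ)) ≤ 8 * ((9 * X : ℕ) : ℝ) * L := by
        gcongr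
      have h4 : 8 * ((9 * X : ℕ) : ℝ) * L = 72 * X * L := by push_cast; ring
      linarith
    have h3 : 0 ≤ b - a + 8 * ((9 * X : ℕ) : ℝ) * (1 + Real.log ((9 * X : ℕ) : ℝ)) := by
      have : 0 ≤ 8 * ((9 * X : ℕ) : ℝ) * (1 + Real.log ((9 * X : ℕ) : ℝ)) := by positivity
      linarith
    have h4 : ∑ m ∈ OB r H x1 x2, (tr r x2 m : ℝ) ^ 2 ≤
        lam * (27 * r * X / H + 1) + lam⁻¹ * (9 * X * L ^ C) := by
      calc ∑ m ∈ OB r H x1 x2, (tr r x2 m : ℝ) ^ 2
          ≤ ∑ m ∈ OB r H x1 x2, (lam + lam⁻¹ * (tr r x2 m : ℝ) ^ 4) := by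
            apply Finset.sum_le_sum
            intro m _
            set t : ℝ := (tr r x2 m : ℝ) ^ 2 with ht
            have h5 : (tr r x2 m : ℝ) ^ 4 = t ^ 2 := by rw [ht, ← pow_mul]
            rw [h5]
            have h6 : lam * (lam + lam⁻¹ * t ^ 2 - t) = lam ^ 2 + t ^ 2 - lam * t := by
              field_simp
            have h7 : 0 ≤ lam ^ 2 + t ^ 2 - lam * t := by nlinarith [sq_nonneg (lam - t), sq_nonneg (lam + t)]
            rw [← h6] at h7
            have h8 := nonneg_of_mul_nonneg_right h7 hlam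
            linarith
        _ = lam * (OB r H x1 x2).card + lam⁻¹ * ∑ m ∈ OB r H x1 x2, (tr r x2 m : ℝ) ^ 4 := by
            rw [Finset.sum_add_distrib, Finset.sum_const, nsmul_eq_mul, Finset.mul_sum]
            ring
        _ ≤ lam * (27 * r * X / H + 1) + lam⁻¹ * (9 * X * L ^ C) := by
            gcongr
            · exact OB_card hH0 hrH hx2
            · calc ∑ m ∈ OB r H x1 x2, (tr r x2 m : ℝ) ^ 4
                  ≤ ∑ m ∈ Finset.Icc 1 (9 * X), (tr r x2 m : ℝ) ^ 4 :=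
                    Finset.sum_le_sum_of_subset_of_nonneg hOBZ (fun _ _ _ => by positivity)
                _ ≤ ((9 * X : ℕ) : ℝ) * (1 + Real.log ((9 * X : ℕ) : ℝ)) ^ C := hDV (9 * X) (by omega)
                _ ≤ 9 * X * L ^ C := by
                    push_cast at hlog9 hlog90 ⊢
                    gcongr
    gcongr
  -- conclusion
  calc ∫ τ in a..b, ‖PD F x1 x2 τ‖ ^ 2
      ≤ ∫ τ in a..b, (2 * ‖∑ l ∈ Ls, A l τ‖ ^ 2 + 2 * ‖R τ‖ ^ 2) := by
        apply intervalIntegral.integral_mono_on hab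
        · have : (fun τ => ‖PD F x1 x2 τ‖ ^ 2) = fun τ => ‖∑ l ∈ Ls, A l τ + R τ‖ ^ 2 := by
            ext τ; rw [hPD]
          rw [this]
          exact (((continuous_finsetSum _ fun l _ => hAc l).add hRc).norm.pow 2).intervalIntegrable _ _
        · exact ((continuous_const.mul ((continuous_finsetSum _ fun l _ => hAc l).norm.pow 2)).add
            (continuous_const.mul (hRc.norm.pow 2))).intervalIntegrable _ _
        · intro τ _
          rw [hPD]
          have h1 := norm_add_le (∑ l ∈ Ls, A l τ) (R τ)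
          have h2 := norm_nonneg (∑ l ∈ Ls, A l τ + R τ)
          nlinarith [sq_nonneg (‖∑ l ∈ Ls, A l τ‖ - ‖R τ‖), norm_nonneg (∑ l ∈ Ls, A l τ), norm_nonneg (R τ)]
    _ = 2 * (∫ τ in a..b, ‖∑ l ∈ Ls, A l τ‖ ^ 2) + 2 * ∫ τ in a..b, ‖R τ‖ ^ 2 := by
        rw [intervalIntegral.integral_add, intervalIntegral.integral_const_mul,
          intervalIntegral.integral_const_mul]
        · exact (continuous_const.mul ((continuous_finsetSum _ fun l _ => hAc l).norm.pow 2)).intervalIntegrable _ _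
        · exact (continuous_const.mul (hRc.norm.pow 2)).intervalIntegrable _ _
    _ ≤ _ := by
        have h1 := mul_le_mul_of_nonneg_left hin (show (0 : ℝ) ≤ 2 by norm_num)
        have h2 := mul_le_mul_of_nonneg_left hout (show (0 : ℝ) ≤ 2 by norm_num)
        exact add_le_add h1 h2

lemma par_inner {r U C D : ℕ} {l N X : ℝ} (hl : 4 * 3 ^ (2 * r) * 5184 * 2 ^ (2 * r + C) ≤ l)
    (hl1 : 1 ≤ l) (hN0 : 0 ≤ N) (hN : N ≤ 3 * l ^ (D + 1)) :
    2 * (N ^ (2 * r) * ((X ^ 2 / l ^ ((D + 1) * (2 * r) + 1 + 2 * r + C + 1 + U)) *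
      (2592 * (2 * l) * ((2 * l) ^ (2 * r) * (2 * l) ^ C)))) ≤ X ^ 2 / l ^ U / 2 := by
  have hl0 : 0 < l := by linarith
  have h1 : N ^ (2 * r) ≤ (3 * l ^ (D + 1)) ^ (2 * r) := pow_le_pow_left₀ hN0 hN _
  have hnn : 0 ≤ (X ^ 2 / l ^ ((D + 1) * (2 * r) + 1 + 2 * r + C + 1 + U)) *
      (2592 * (2 * l) * ((2 * l) ^ (2 * r) * (2 * l) ^ C)) := by positivity
  have h2 : 2 * (N ^ (2 * r) * ((X ^ 2 / l ^ ((D + 1) * (2 * r) + 1 + 2 * r + C + 1 + U)) *
      (2592 * (2 * l) * ((2 * l) ^ (2 * r) * (2 * l) ^ C)))) ≤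
      2 * ((3 * l ^ (D + 1)) ^ (2 * r) * ((X ^ 2 / l ^ ((D + 1) * (2 * r) + 1 + 2 * r + C + 1 + U)) *
      (2592 * (2 * l) * ((2 * l) ^ (2 * r) * (2 * l) ^ C)))) := by gcongr
  refine h2.trans ?_
  have h3 : 2 * ((3 * l ^ (D + 1)) ^ (2 * r) * ((X ^ 2 / l ^ ((D + 1) * (2 * r) + 1 + 2 * r + C + 1 + U)) *
      (2592 * (2 * l) * ((2 * l) ^ (2 * r) * (2 * l) ^ C)))) =
      (4 * 3 ^ (2 * r) * 5184 * 2 ^ (2 * r + C)) * (X ^ 2 / l ^ U / 2) / l := by
    rw [mul_pow, mul_pow, mul_pow, ← pow_mul, pow_add l _ U, pow_add l _ 1, pow_add l _ C,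
      pow_add l _ (2 * r), pow_add l _ 1, pow_add 2 (2 * r) C, pow_one]
    field_simp
    ring
  rw [h3, div_le_iff₀ hl0, mul_comm]
  apply mul_le_mul_of_nonneg_left hl (by positivity)

lemma par_outer {r U C : ℕ} {l X : ℝ} (hl : 580 * 2 ^ (2 * r) * (28 * r + 9 * 2 ^ C) ≤ l)
    (hl1 : 1 ≤ l) (hr : 1 ≤ r) (hX : 1 ≤ X)
    (hXH : l ^ ((C + 2 * r + 2 + U) + (2 * r + 2 + U)) ≤ X) :
    2 * ((X + 72 * X * (2 * l)) * ((2 * l) ^ (2 * r) * (l ^ (C + 2 * r + 2 + U) *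
      (27 * r * X / l ^ ((C + 2 * r + 2 + U) + (2 * r + 2 + U)) + 1) +
      (l ^ (C + 2 * r + 2 + U))⁻¹ * (9 * X * (2 * l) ^ C)))) ≤ X ^ 2 / l ^ U / 2 := by
  have hl0 : 0 < l := by linarith
  have hX0 : 0 < X := by linarith
  have hr1 : (1 : ℝ) ≤ r := by exact_mod_cast hr
  set E := C + 2 * r + 2 + U with hE
  have h1 : X + 72 * X * (2 * l) ≤ 145 * X * l := by nlinarith
  have h2 : 27 * r * X / l ^ (E + (2 * r + 2 + U)) + 1 ≤ 28 * r * X / l ^ (E + (2 * r + 2 + U)) := by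
    rw [div_add_one (by positivity), div_le_div_iff_of_pos_right (by positivity)]
    nlinarith
  have h3 : l ^ E * (28 * r * X / l ^ (E + (2 * r + 2 + U))) = 28 * r * X / l ^ (2 * r + 2 + U) := by
    rw [pow_add l E]
    field_simp
  have h4 : (l ^ E)⁻¹ * (9 * X * (2 * l) ^ C) = 9 * 2 ^ C * X / l ^ (2 * r + 2 + U) := by
    rw [hE, show C + 2 * r + 2 + U = C + (2 * r + 2 + U) by ring, pow_add l C, mul_pow]
    field_simp
  have h5 : l ^ E * (27 * r * X / l ^ (E + (2 * r + 2 + U)) + 1) + (l ^ E)⁻¹ * (9 * X * (2 * l) ^ C) ≤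
      (28 * r + 9 * 2 ^ C) * X / l ^ (2 * r + 2 + U) := by
    have h6 : l ^ E * (27 * r * X / l ^ (E + (2 * r + 2 + U)) + 1) ≤
        l ^ E * (28 * r * X / l ^ (E + (2 * r + 2 + U))) := by gcongr
    rw [h3] at h6
    rw [h4]
    refine (add_le_add_left h6 _).trans (le_of_eq ?_)
    ring
  calc _ ≤ 2 * ((145 * X * l) * ((2 * l) ^ (2 * r) * ((28 * r + 9 * 2 ^ C) * X / l ^ (2 * r + 2 + U)))) := by
        gcongr
    _ = (580 * 2 ^ (2 * r) * (28 * r + 9 * 2 ^ C)) * (X ^ 2 / l ^ U / 2) / l := by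
        rw [mul_pow, pow_add l _ U, pow_add l _ 2]
        field_simp
        ring
    _ ≤ X ^ 2 / l ^ U / 2 := by
        rw [div_le_iff₀ hl0, mul_comm]
        exact mul_le_mul_of_nonneg_left hl (by positivity)

theorem mvg (hDV : S_DV) : S_MVG := by
  intro r U hr
  obtain ⟨C, hC⟩ := hDV r
  set E := C + 2 * r + 2 + U with hE
  set D := E + (2 * r + 2 + U) with hD
  set K := (D + 1) * (2 * r) + 1 + 2 * r + C + 1 + U with hK
  set c : ℝ := 4 * 3 ^ (2 * r) * 5184 * 2 ^ (2 * r + C) + 580 * 2 ^ (2 * r) * (28 * r + 9 * 2 ^ C) + r + 4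
    with hc
  have hev1 : ∀ᶠ X : ℕ in Filter.atTop, c ≤ Real.log X :=
    (Real.tendsto_log_atTop.comp tendsto_natCast_atTop_atTop).eventually (Filter.eventually_ge_atTop c)
  have hev2 : ∀ᶠ X : ℕ in Filter.atTop, Real.log X ^ D ≤ X := by
    have h1 := (Real.isLittleO_pow_log_id_atTop (n := D)).bound (show (0 : ℝ) < 1 by norm_num)
    have h2 := tendsto_natCast_atTop_atTop.eventually h1
    filter_upwards [h2] with X hX
    simp only [id, one_mul, Real.norm_eq_abs] at hX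
    have h3 : |(X : ℝ)| = X := abs_of_nonneg (Nat.cast_nonneg _)
    rw [h3] at hX
    exact (le_abs_self _).trans hX
  obtain ⟨X₀, hX₀⟩ := Filter.eventually_atTop.mp (hev1.and (hev2.and (Filter.eventually_ge_atTop 1)))
  refine ⟨K, X₀, ?_⟩
  intro X hXX T0 T hT0 hTT hTX F hF hgood x1 x2 hx1 hx2
  obtain ⟨hlc, hHX, hX1⟩ := hX₀ X hXX
  set l := Real.log X with hl
  have hr1 : (1 : ℝ) ≤ r := by exact_mod_cast hr
  have hpa : (0 : ℝ) ≤ 4 * 3 ^ (2 * r) * 5184 * 2 ^ (2 * r + C) := by positivity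
  have hpb : (0 : ℝ) ≤ 580 * 2 ^ (2 * r) * (28 * r + 9 * 2 ^ C) := by positivity
  have hl4 : 4 ≤ l := by rw [hc] at hlc; linarith
  have hlr : (r : ℝ) ≤ l := by rw [hc] at hlc; linarith
  have hla : 4 * 3 ^ (2 * r) * 5184 * 2 ^ (2 * r + C) ≤ l := by rw [hc] at hlc; linarith
  have hlb : 580 * 2 ^ (2 * r) * (28 * r + 9 * 2 ^ C) ≤ l := by rw [hc] at hlc; linarith
  have hl1 : 1 ≤ l := by linarith
  have hl0 : 0 < l := by linarith
  have hX1r : (1 : ℝ) ≤ X := by exact_mod_cast hX1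
  have hD1 : D ≠ 0 := by omega
  have hlH : l ≤ l ^ D := le_self_pow₀ hl1 hD1
  have hlog18 : Real.log 18 ≤ 3 := by
    rw [Real.log_le_iff_le_exp (by norm_num)]
    have h1 := Real.exp_one_gt_d9
    have h2 : Real.exp 3 = Real.exp 1 ^ 3 := by rw [← Real.exp_nat_mul]; norm_num
    rw [h2]
    calc (18 : ℝ) ≤ 2.7 ^ 3 := by norm_num
      _ ≤ Real.exp 1 ^ 3 := by gcongr; linarith
  have hlog : 1 + Real.log (18 * X) ≤ 2 * l := by
    rw [Real.log_mul (by norm_num) (by linarith)]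
    linarith
  have hx2r : (x2 : ℝ) ≤ 9 * X := by exact_mod_cast hx2
  have hFb : ∀ i, ∀ n ≤ x2, ‖F i n‖ ≤ 2 * l := by
    intro i n hn
    refine (hF i n).trans ?_
    have h1 : (n : ℝ) + 3 ≤ 18 * X := by
      have : (n : ℝ) ≤ x2 := by exact_mod_cast hn
      linarith
    have h2 : Real.log ((n : ℝ) + 3) ≤ Real.log (18 * X) := Real.log_le_log (by positivity) h1
    linarith
  have hlogx2 : Real.log x2 ≤ 2 * l := by
    rcases Nat.eq_zero_or_pos x2 with h | h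
    · rw [h]; simp; linarith
    · have h1 : (0 : ℝ) < x2 := by exact_mod_cast h
      have h2 : Real.log x2 ≤ Real.log (18 * X) := Real.log_le_log h1 (by linarith)
      linarith
  have hlogx20 : 0 ≤ Real.log (x2 : ℝ) := Real.log_natCast_nonneg _
  set N : ℕ := ⌊Real.log x2 * l ^ D⌋₊ + 1 with hN
  have hN1 : Real.log x2 * l ^ D < N := by
    rw [hN]; push_cast; exact Nat.lt_floor_add_one _
  have hN2 : (N : ℝ) ≤ 3 * l ^ (D + 1) := by
    rw [hN]
    push_cast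
    have h1 := Nat.floor_le (show 0 ≤ Real.log x2 * l ^ D by positivity)
    have h2 : Real.log x2 * l ^ D ≤ 2 * l * l ^ D := by gcongr
    have h3 : 1 ≤ l ^ (D + 1) := one_le_pow₀ hl1
    rw [pow_succ] at h3 ⊢
    linarith
  have key : ∀ a b : ℝ, a ≤ b → b - a ≤ T → (∀ τ, a ≤ τ → τ ≤ b → T0 ≤ |τ| ∧ |τ| ≤ T) →
      ∫ τ in a..b, ‖PD F x1 x2 τ‖ ^ 2 ≤ (X : ℝ) ^ 2 / l ^ U := by
    intro a b hab hba hτ
    have h1 := whole (H := l ^ D) (L := 2 * l) (lam := l ^ E) (C := C) (N := N) (K := K) hr F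
      (by linarith) (by rw [div_le_one (by positivity)]; linarith) hX1 hx1 hx2 (by linarith)
      (by positivity) hN1 hFb hgood hab hba (hT0.trans hTT) hTX hτ hlog hl0 (hC x2)
    have h2 := par_inner (r := r) (U := U) (C := C) (D := D) (X := X) hla hl1 (Nat.cast_nonneg N) hN2
    have h3 := par_outer (r := r) (U := U) (C := C) hlb hl1 hr hX1r (by rw [← hE, ← hD]; exact hHX)
    rw [← hE, ← hD] at h3
    rw [← hK] at h2
    refine h1.trans ((add_le_add h2 h3).trans (le_of_eq ?_))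
    ring
  constructor
  · refine key T0 T hTT (by linarith) ?_
    intro τ h1 h2
    rw [abs_of_nonneg (by linarith)]
    exact ⟨h1, h2⟩
  · refine key (-T) (-T0) (by linarith) (by linarith) ?_
    intro τ h1 h2
    rw [abs_of_nonpos (by linarith)]
    exact ⟨by linarith, by linarith⟩

end Pool.Agent.V5helper43.CR
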