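import Mathlib
import Pool.Agent.Q236.CR.Stm

/-! Heath-Brown's identity (statement `S_HB` of `Pool/Agent/Q236/CR/Stm.lean`, for `k ≥ 1`; for
`k = 0` the second part of `S_HB` fails at `n = 1`). -/

set_option autoImplicit false

namespace Pool.Agent.V5helper43.CR

open Finset Pool.Agent.Q236.CR

/-- `S_HB` with the missing hypothesis `1 ≤ k` -/
def S_HB1 : Prop := ∀ g : ℕ → ℂ, (∀ m n, g (m * n) = g m * g n) → g 1 = 1 → ∀ k z X n : ℕ, 1 ≤ k → 1 ≤ n →
  n ≤ X → n ≤ z ^ k →
  (g n * (ArithmeticFunction.vonMangoldt n : ℂ) =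
    ∑ j ∈ Finset.range k, (-1 : ℂ) ^ j * (k.choose (j + 1) : ℂ) * TS (HBL g z j) X n) ∧
  (g n * ((ArithmeticFunction.moebius n : ℤ) : ℂ) =
    ∑ j ∈ Finset.range k, (-1 : ℂ) ^ j * (k.choose (j + 1) : ℂ) * TS (HBM g z j) X n)

/-- the indicator function of `a` -/
noncomputable def dl (a : ℕ) (c : ℂ) : ArithmeticFunction ℂ :=
  ⟨fun n => if n = a ∧ n ≠ 0 then c else 0, by simp⟩

lemma dl_apply (a : ℕ) (c : ℂ) (n : ℕ) : dl a c n = if n = a ∧ n ≠ 0 then c else 0 := rfl

/-- evaluation at `n` -/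
noncomputable def evn (n : ℕ) : ArithmeticFunction ℂ →+ ℂ where
  toFun f := f n
  map_zero' := rfl
  map_add' _ _ := rfl

lemma evn_apply (n : ℕ) (f : ArithmeticFunction ℂ) : evn n f = f n := rfl

lemma dl_mul {a b : ℕ} (ha : 1 ≤ a) (hb : 1 ≤ b) (c d : ℂ) : dl a c * dl b d = dl (a * b) (c * d) := by
  ext n
  rw [ArithmeticFunction.mul_apply, dl_apply]
  by_cases hn : n = a * b
  · subst hn
    rw [Finset.sum_eq_single (a, b)]
    · rw [dl_apply, dl_apply, if_pos ⟨rfl, by simp only; omega⟩, if_pos ⟨rfl, by simp only; omega⟩,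
        if_pos ⟨rfl, by positivity⟩]
    · rintro ⟨x, y⟩ hxy hne
      rw [dl_apply, dl_apply]
      by_cases hx : x = a
      · have hy : y ≠ b := by
          rintro rfl
          exact hne (by rw [hx])
        have h2 : (if (x, y).2 = b ∧ (x, y).2 ≠ 0 then d else 0) = 0 := if_neg (fun h => hy h.1)
        rw [h2, mul_zero]
      · have h2 : (if (x, y).1 = a ∧ (x, y).1 ≠ 0 then c else 0) = 0 := if_neg (fun h => hx h.1)
        rw [h2, zero_mul]
    · intro h
      exfalso
      apply h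
      rw [Nat.mem_divisorsAntidiagonal]
      exact ⟨rfl, by positivity⟩
  · rw [if_neg (fun h => hn h.1)]
    apply Finset.sum_eq_zero
    rintro ⟨x, y⟩ hxy
    rw [Nat.mem_divisorsAntidiagonal] at hxy
    rw [dl_apply, dl_apply]
    by_cases hx : x = a
    · have hy : y ≠ b := by
        rintro rfl
        apply hn
        rw [← hxy.1, hx]
      have h2 : (if (x, y).2 = b ∧ (x, y).2 ≠ 0 then d else 0) = 0 := if_neg (fun h => hy h.1)
      rw [h2, mul_zero]
    · have h2 : (if (x, y).1 = a ∧ (x, y).1 ≠ 0 then c else 0) = 0 := if_neg (fun h => hx h.1)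
      rw [h2, zero_mul]

lemma prod_dl {ι : Type*} (s : Finset ι) (v : ι → ℕ) (c : ι → ℂ) (hv : ∀ i ∈ s, 1 ≤ v i) :
    ∏ i ∈ s, dl (v i) (c i) = dl (∏ i ∈ s, v i) (∏ i ∈ s, c i) := by
  classical
  induction s using Finset.induction_on with
  | empty =>
    simp only [Finset.prod_empty]
    ext n
    rw [dl_apply, ArithmeticFunction.one_apply]
    by_cases hn : n = 1
    · simp [hn]
    · simp [hn]
  | insert a s ha ih =>
    rw [Finset.prod_insert ha, Finset.prod_insert ha, Finset.prod_insert ha,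
      ih (fun i hi => hv i (Finset.mem_insert_of_mem hi)),
      dl_mul (hv a (Finset.mem_insert_self _ _))]
    exact Finset.one_le_prod' (fun i hi => hv i (Finset.mem_insert_of_mem hi))

/-- the truncation of `f` at `X` -/
noncomputable def tru (X : ℕ) (f : ArithmeticFunction ℂ) : ArithmeticFunction ℂ :=
  ∑ a ∈ Finset.Icc 1 X, dl a (f a)

lemma sum_apply' {ι : Type*} (s : Finset ι) (f : ι → ArithmeticFunction ℂ) (n : ℕ) :
    (∑ i ∈ s, f i) n = ∑ i ∈ s, f i n := by
  classical
  induction s using Finset.induction_on with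
  | empty => simp
  | insert a s ha ih => rw [Finset.sum_insert ha, Finset.sum_insert ha, ArithmeticFunction.add_apply, ih]

lemma tru_apply (X : ℕ) (f : ArithmeticFunction ℂ) (n : ℕ) (hn : n ≤ X) : tru X f n = f n := by
  unfold tru
  rw [sum_apply']
  rcases Nat.eq_zero_or_pos n with rfl | hpos
  · simp
  · rw [Finset.sum_eq_single n]
    · rw [dl_apply, if_pos ⟨rfl, by omega⟩]
    · intro b _ hb
      rw [dl_apply, if_neg (fun h => hb h.1.symm)]
    · intro h
      exfalso
      apply h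
      rw [Finset.mem_Icc]
      omega

lemma agree_mul {X : ℕ} {f f' h h' : ArithmeticFunction ℂ} (hf : ∀ n ≤ X, f n = f' n)
    (hh : ∀ n ≤ X, h n = h' n) : ∀ n ≤ X, (f * h) n = (f' * h') n := by
  intro n hn
  rw [ArithmeticFunction.mul_apply, ArithmeticFunction.mul_apply]
  apply Finset.sum_congr rfl
  rintro ⟨x, y⟩ hxy
  rw [Nat.mem_divisorsAntidiagonal] at hxy
  have hx : x ≤ n := Nat.le_of_dvd (Nat.pos_of_ne_zero hxy.2) ⟨y, hxy.1.symm⟩
  have hy : y ≤ n := Nat.le_of_dvd (Nat.pos_of_ne_zero hxy.2) ⟨x, by rw [mul_comm]; exact hxy.1.symm⟩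
  simp only
  rw [hf x (hx.trans hn), hh y (hy.trans hn)]

lemma agree_prod {ι : Type*} (s : Finset ι) {X : ℕ} {f f' : ι → ArithmeticFunction ℂ}
    (hf : ∀ i, ∀ n ≤ X, f i n = f' i n) : ∀ n ≤ X, (∏ i ∈ s, f i) n = (∏ i ∈ s, f' i) n := by
  classical
  induction s using Finset.induction_on with
  | empty => intro n _; rfl
  | insert a s ha ih =>
    rw [Finset.prod_insert ha, Finset.prod_insert ha]
    exact agree_mul (hf a) ih

/-- Dirichlet products as sums over tuples -/
lemma TS_eq {r : ℕ} (f : Fin r → ArithmeticFunction ℂ) (X n : ℕ) (hn1 : 1 ≤ n) (hn : n ≤ X) :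
    TS (fun i m => f i m) X n = (∏ i, f i) n := by
  classical
  have h1 : (∏ i, f i) n = (∏ i, tru X (f i)) n :=
    agree_prod Finset.univ (fun i m hm => (tru_apply X (f i) m hm).symm) n hn
  rw [h1]
  unfold tru TS
  rw [Finset.prod_univ_sum, sum_apply', Finset.sum_filter]
  apply Finset.sum_congr rfl
  intro v hv
  rw [Fintype.mem_piFinset] at hv
  rw [prod_dl Finset.univ (fun i => v i) (fun i => f i (v i))
    (fun i _ => (Finset.mem_Icc.mp (hv i)).1), dl_apply]
  by_cases h : ∏ i, v i = n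
  · rw [if_pos h, if_pos ⟨h.symm, by omega⟩]
  · rw [if_neg h, if_neg (fun h' => h h'.1.symm)]

lemma TS_twist {r : ℕ} (g : ℕ → ℂ) (hg : ∀ m n, g (m * n) = g m * g n) (hg1 : g 1 = 1)
    (F G : Fin r → ℕ → ℂ) (hFG : ∀ i n, 1 ≤ n → G i n = g n * F i n) (X n : ℕ) :
    TS G X n = g n * TS F X n := by
  classical
  unfold TS
  rw [Finset.mul_sum]
  apply Finset.sum_congr rfl
  intro v hv
  have hv2 := (Finset.mem_filter.mp hv).2
  have hv3 := Fintype.mem_piFinset.mp (Finset.mem_filter.mp hv).1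
  have h1 : ∀ s : Finset (Fin r), ∏ i ∈ s, g (v i) = g (∏ i ∈ s, v i) := by
    intro s
    induction s using Finset.induction_on with
    | empty => simp [hg1]
    | insert a s ha ih => rw [Finset.prod_insert ha, Finset.prod_insert ha, ih, hg]
  rw [← hv2, ← h1 Finset.univ, ← Finset.prod_mul_distrib]
  exact Finset.prod_congr rfl fun i _ => hFG i _ (Finset.mem_Icc.mp (hv3 i)).1

/-- the Moebius function cut at `z` -/
noncomputable def muz (z : ℕ) : ArithmeticFunction ℂ :=
  ⟨fun n => if n ≤ z then ((ArithmeticFunction.moebius n : ℤ) : ℂ) else 0, by simp⟩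

lemma muz_apply (z n : ℕ) :
    muz z n = if n ≤ z then ((ArithmeticFunction.moebius n : ℤ) : ℂ) else 0 := rfl

noncomputable def cLam : ArithmeticFunction ℂ := ⟨fun n => (ArithmeticFunction.vonMangoldt n : ℂ), by simp⟩
noncomputable def cLog : ArithmeticFunction ℂ := ⟨fun n => (Real.log n : ℂ), by simp⟩
noncomputable def cMu : ArithmeticFunction ℂ := ⟨fun n => ((ArithmeticFunction.moebius n : ℤ) : ℂ), by simp⟩
noncomputable def cZ : ArithmeticFunction ℂ := ((ArithmeticFunction.zeta : ArithmeticFunction ℕ) : ArithmeticFunction ℂ)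

lemma cZ_apply (n : ℕ) (hn : 1 ≤ n) : cZ n = 1 := by
  unfold cZ
  rw [ArithmeticFunction.natCoe_apply, ArithmeticFunction.zeta_apply, if_neg (by omega)]
  simp

lemma cLam_mul : cLam * cZ = cLog := by
  ext n
  unfold cZ
  rw [ArithmeticFunction.coe_mul_zeta_apply]
  change ∑ i ∈ n.divisors, (ArithmeticFunction.vonMangoldt i : ℂ) = (Real.log n : ℂ)
  rw [← ArithmeticFunction.vonMangoldt_sum]
  push_cast
  rfl

lemma cMu_mul : cMu * cZ = 1 := by
  ext n
  unfold cZ
  rw [ArithmeticFunction.coe_mul_zeta_apply, ArithmeticFunction.one_apply]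
  change ∑ i ∈ n.divisors, ((ArithmeticFunction.moebius i : ℤ) : ℂ) = _
  have h : (∑ i ∈ n.divisors, ArithmeticFunction.moebius i : ℤ) = if n = 1 then 1 else 0 := by
    have h1 := ArithmeticFunction.moebius_mul_coe_zeta
    have h2 := congrArg (fun f : ArithmeticFunction ℤ => f n) h1
    simp only [ArithmeticFunction.coe_mul_zeta_apply, ArithmeticFunction.one_apply] at h2
    exact h2
  rw [← Int.cast_sum, h]
  split_ifs <;> simp

/-- `1 - ζ * μ_z` -/
noncomputable def Ez (z : ℕ) : ArithmeticFunction ℂ := 1 - cZ * muz z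

lemma Ez_zero (z n : ℕ) (hn : n ≤ z) : Ez z n = 0 := by
  unfold Ez
  rw [← evn_apply, map_sub, evn_apply, evn_apply]
  have h1 : (cZ * muz z) n = (cMu * cZ) n := by
    rw [mul_comm cMu cZ]
    unfold cZ
    rw [ArithmeticFunction.coe_zeta_mul_apply, ArithmeticFunction.coe_zeta_mul_apply]
    apply Finset.sum_congr rfl
    intro i hi
    rw [muz_apply, if_pos ((Nat.divisor_le hi).trans hn)]
    rfl
  rw [h1, cMu_mul, sub_self]

lemma Ez_pow (z k : ℕ) : ∀ n < (z + 1) ^ k, (Ez z ^ k) n = 0 := by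
  induction k with
  | zero =>
    intro n hn
    have : n = 0 := by simpa using hn
    subst this
    simp
  | succ k ih =>
    intro n hn
    rw [pow_succ, ArithmeticFunction.mul_apply]
    apply Finset.sum_eq_zero
    rintro ⟨a, b⟩ hab
    rw [Nat.mem_divisorsAntidiagonal] at hab
    simp only
    by_cases hb : b ≤ z
    · rw [Ez_zero z b hb, mul_zero]
    · rw [ih a ?_, zero_mul]
      by_contra h
      push Not at h
      have h1 : (z + 1) ^ k * (z + 1) ≤ a * b := Nat.mul_le_mul h (by omega)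
      rw [← pow_succ] at h1
      have := hab.1
      simp only at this
      omega

lemma mul_Ez_pow (f : ArithmeticFunction ℂ) (z k n : ℕ) (hn : n < (z + 1) ^ k) :
    (f * Ez z ^ k) n = 0 := by
  rw [ArithmeticFunction.mul_apply]
  apply Finset.sum_eq_zero
  rintro ⟨a, b⟩ hab
  rw [Nat.mem_divisorsAntidiagonal] at hab
  simp only
  rw [Ez_pow z k b ?_, mul_zero]
  have : b ≤ n := Nat.le_of_dvd (Nat.pos_of_ne_zero hab.2) ⟨a, by rw [mul_comm]; exact hab.1.symm⟩
  omega

lemma expand_gen {R : Type*} [CommRing R] (f h c m : R) (hfh : f * c = h) (k : ℕ) :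
    f * (1 - c * m) ^ k = f + ∑ j ∈ Finset.range k,
      (((-1 : ℤ) ^ (j + 1) * (k.choose (j + 1) : ℤ) : ℤ)) • (h * c ^ j * m ^ (j + 1)) := by
  have h1 : 1 - c * m = -(c * m) + 1 := by ring
  rw [h1, add_pow, Finset.sum_range_succ', mul_add, add_comm, Finset.mul_sum]
  congr 1
  · simp
  · apply Finset.sum_congr rfl
    intro j _
    rw [← hfh, zsmul_eq_mul]
    push_cast
    rw [one_pow, mul_one, neg_pow, mul_pow, pow_succ c j]
    ring

/-- the identity for a function `f` with `f * ζ = h` -/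
lemma hb_gen (f h : ArithmeticFunction ℂ) (hfh : f * cZ = h) (k z n : ℕ) (hk : 1 ≤ k)
    (hn : n ≤ z ^ k) :
    f n = ∑ j ∈ Finset.range k, (-1 : ℂ) ^ j * (k.choose (j + 1) : ℂ) *
      (h * cZ ^ j * muz z ^ (j + 1)) n := by
  have hlt : n < (z + 1) ^ k := lt_of_le_of_lt hn (Nat.pow_lt_pow_left (by omega) (by omega))
  have h0 := mul_Ez_pow f z k n hlt
  unfold Ez at h0
  rw [expand_gen f h cZ (muz z) hfh k, ← evn_apply, map_add, map_sum] at h0
  rw [← evn_apply, eq_neg_of_add_eq_zero_left h0, ← Finset.sum_neg_distrib]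
  apply Finset.sum_congr rfl
  intro j _
  rw [map_zsmul, evn_apply, zsmul_eq_mul]
  push_cast
  ring

lemma prod_HBL (z j : ℕ) :
    ∏ i, (Fin.addCases (fun _ => muz z) (fun i => if (i : ℕ) = j then cLog else cZ) :
      Fin ((j + 1) + (j + 1)) → ArithmeticFunction ℂ) i = cLog * cZ ^ j * muz z ^ (j + 1) := by
  rw [Fin.prod_univ_add]
  simp only [Fin.addCases_left, Fin.addCases_right, Finset.prod_const, Finset.card_univ,
    Fintype.card_fin]
  rw [Fin.prod_univ_castSucc]
  have h1 : ∀ i : Fin j, (if ((Fin.castSucc i : Fin (j + 1)) : ℕ) = j then cLog else cZ) = cZ := by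
    intro i
    rw [if_neg]
    simp only [Fin.val_castSucc]
    exact i.2.ne
  simp only [h1, Finset.prod_const, Finset.card_univ, Fintype.card_fin, Fin.val_last, if_true]
  ring

lemma prod_HBM (z j : ℕ) :
    ∏ i, (Fin.addCases (fun _ => muz z) (fun _ => cZ) :
      Fin ((j + 1) + j) → ArithmeticFunction ℂ) i = 1 * cZ ^ j * muz z ^ (j + 1) := by
  rw [Fin.prod_univ_add]
  simp only [Fin.addCases_left, Fin.addCases_right, Finset.prod_const, Finset.card_univ,
    Fintype.card_fin]
  ring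

theorem hb : S_HB1 := by
  intro g hg hg1 k z X n hk hn1 hnX hnz
  constructor
  · have h1 := hb_gen cLam cLog cLam_mul k z n hk hnz
    have h2 : (ArithmeticFunction.vonMangoldt n : ℂ) = cLam n := rfl
    rw [h2, h1, Finset.mul_sum]
    apply Finset.sum_congr rfl
    intro j _
    rw [← prod_HBL, ← TS_eq _ X n hn1 hnX]
    rw [TS_twist g hg hg1 (fun i m => (Fin.addCases (fun _ => muz z)
      (fun i => if (i : ℕ) = j then cLog else cZ) :
      Fin ((j + 1) + (j + 1)) → ArithmeticFunction ℂ) i m) (HBL g z j) ?_ X n]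
    · ring
    · intro i m hm
      unfold HBL
      refine Fin.addCases (fun i => ?_) (fun i => ?_) i
      · simp only [Fin.addCases_left, gmu, muz_apply]
        split_ifs <;> simp
      · simp only [Fin.addCases_right]
        split_ifs
        · rfl
        · rw [cZ_apply m hm, mul_one]
  · have h1 := hb_gen cMu 1 cMu_mul k z n hk hnz
    have h2 : ((ArithmeticFunction.moebius n : ℤ) : ℂ) = cMu n := rfl
    rw [h2, h1, Finset.mul_sum]
    apply Finset.sum_congr rfl
    intro j _
    rw [← prod_HBM, ← TS_eq _ X n hn1 hnX]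
    rw [TS_twist g hg hg1 (fun i m => (Fin.addCases (fun _ => muz z) (fun _ => cZ) :
      Fin ((j + 1) + j) → ArithmeticFunction ℂ) i m) (HBM g z j) ?_ X n]
    · ring
    · intro i m hm
      unfold HBM
      refine Fin.addCases (fun i => ?_) (fun i => ?_) i
      · simp only [Fin.addCases_left, gmu, muz_apply]
        split_ifs <;> simp
      · simp only [Fin.addCases_right]
        rw [cZ_apply m hm, mul_one]

end Pool.Agent.V5helper43.CR
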