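import Mathlib
import Pool.Agent.Q236.CR.Stm
import Pool.Agent.H398R2.BA1

/-! Moments of the number of factorisations (statement `S_DV` of `Pool/Agent/Q236/CR/Stm.lean`). -/

set_option autoImplicit false

namespace Pool.Agent.V5helper43.CR

open Finset Pool.Agent.Q236.CR

lemma tr_le (r X n : ℕ) (hn : 1 ≤ n) : tr r X n ≤ n.divisors.card ^ r := by
  classical
  have h1 : tr r X n ≤ (Fintype.piFinset (fun _ : Fin r => n.divisors)).card := by
    unfold tr
    apply Finset.card_le_card
    intro v hv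
    rw [Finset.mem_filter, Fintype.mem_piFinset] at hv
    rw [Fintype.mem_piFinset]
    intro i
    rw [Nat.mem_divisors]
    refine ⟨?_, by omega⟩
    rw [← hv.2]
    exact Finset.dvd_prod_of_mem _ (Finset.mem_univ i)
  refine h1.trans (le_of_eq ?_)
  rw [Fintype.card_piFinset]
  simp

theorem dv : S_DV := by
  intro r
  refine ⟨2 ^ (r * 4), ?_⟩
  intro X Y hY
  calc ∑ n ∈ Finset.Icc 1 Y, (tr r X n : ℝ) ^ 4
      ≤ ∑ n ∈ Finset.Icc 1 Y, (Y : ℝ) * ((n.divisors.card : ℝ) ^ (r * 4) / n) := by
        apply Finset.sum_le_sum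
        intro n hn
        rw [Finset.mem_Icc] at hn
        have h1 : (tr r X n : ℝ) ≤ (n.divisors.card : ℝ) ^ r := by
          exact_mod_cast tr_le r X n hn.1
        have h2 : (tr r X n : ℝ) ^ 4 ≤ (n.divisors.card : ℝ) ^ (r * 4) := by
          rw [pow_mul]
          exact pow_le_pow_left₀ (by positivity) h1 4
        refine h2.trans ?_
        have hn0 : (0 : ℝ) < n := by exact_mod_cast hn.1
        have hnY : (n : ℝ) ≤ Y := by exact_mod_cast hn.2
        rw [mul_div_assoc', le_div_iff₀ hn0, mul_comm]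
        exact mul_le_mul_of_nonneg_right hnY (by positivity)
    _ = Y * ∑ n ∈ Finset.Icc 1 Y, ((n.divisors.card : ℝ) ^ (r * 4) / n) := by
        rw [Finset.mul_sum]
    _ ≤ Y * (1 + Real.log Y) ^ (2 ^ (r * 4)) :=
        mul_le_mul_of_nonneg_left (Pool.Agent.H398R2.BV.sum_card_pow_div _ _) (by positivity)

end Pool.Agent.V5helper43.CR
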