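import Mathlib
import Pool.Agent.Q236.CR.Stm
import Pool.Agent.H370R2.MV
import Pool.Agent.H153R4.Pl

/-! From Dirichlet polynomials to short intervals (statement `S_WIN` of
`Pool/Agent/Q236/CR/Stm.lean`). -/

set_option autoImplicit false

namespace Pool.Agent.V5helper43.CR

open Finset MeasureTheory Pool.Agent.Q236.CR
open scoped ENNReal FourierTransform

section

variable (a : ℕ → ℂ) (x : ℕ)

/-- the sum of `a n` over `x < n ≤ 9x`, `log n ≤ u` -/
noncomputable def WP (u : ℝ) : ℂ := ∑ n ∈ Finset.Ioc x (9 * x), if Real.log n ≤ u then a n else 0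

/-- increments -/
noncomputable def WG (k u : ℝ) : ℂ := WP a x (u + k) - WP a x u

/-- the Dirichlet polynomial -/
noncomputable def WA (τ : ℝ) : ℂ := ∑ n ∈ Finset.Ioc x (9 * x), a n * nt τ n

lemma WP_meas : Measurable (WP a x) := by
  unfold WP
  apply Finset.measurable_sum
  intro n _
  exact Measurable.ite measurableSet_Ici measurable_const measurable_const

lemma WG_meas : Measurable (fun p : ℝ × ℝ => WG a x p.1 p.2) := by
  unfold WG
  exact ((WP_meas a x).comp (measurable_snd.add measurable_fst)).sub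
    ((WP_meas a x).comp measurable_snd)

/-- windows as increments -/
lemma window_eq {Y m : ℕ} (hY : Y ≤ x) (hm : m ∈ Finset.Ioc x (2 * x)) {y : ℝ} (hy1 : (m : ℝ) ≤ y)
    (hy2 : y < m + 1) :
    ∑ n ∈ Finset.Ioc m (m + Y), a n = WP a x (Real.log (y + Y)) - WP a x (Real.log y) := by
  rw [Finset.mem_Ioc] at hm
  have hy0 : 0 < y := by
    have : (0 : ℝ) < m := by exact_mod_cast (by omega : 0 < m)
    linarith
  have hyY : 0 < y + Y := by positivity
  have h1 : WP a x (Real.log y) = ∑ n ∈ Finset.Ioc x m, a n := by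
    unfold WP
    rw [← Finset.sum_filter]
    apply Finset.sum_congr _ (fun _ _ => rfl)
    ext n
    rw [Finset.mem_filter, Finset.mem_Ioc, Finset.mem_Ioc]
    constructor
    · rintro ⟨⟨h2, h3⟩, h4⟩
      refine ⟨h2, ?_⟩
      have hn0 : (0 : ℝ) < n := by exact_mod_cast (by omega : 0 < n)
      rw [Real.log_le_log_iff hn0 hy0] at h4
      have h5 : (n : ℝ) < m + 1 := lt_of_le_of_lt h4 hy2
      have h6 : n < m + 1 := by exact_mod_cast h5
      omega
    · rintro ⟨h2, h3⟩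
      refine ⟨⟨h2, by omega⟩, ?_⟩
      have hn0 : (0 : ℝ) < n := by exact_mod_cast (by omega : 0 < n)
      apply Real.log_le_log hn0
      have : (n : ℝ) ≤ m := by exact_mod_cast h3
      linarith
  have h2 : WP a x (Real.log (y + Y)) = ∑ n ∈ Finset.Ioc x (m + Y), a n := by
    unfold WP
    rw [← Finset.sum_filter]
    apply Finset.sum_congr _ (fun _ _ => rfl)
    ext n
    rw [Finset.mem_filter, Finset.mem_Ioc, Finset.mem_Ioc]
    constructor
    · rintro ⟨⟨h2, h3⟩, h4⟩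
      refine ⟨h2, ?_⟩
      have hn0 : (0 : ℝ) < n := by exact_mod_cast (by omega : 0 < n)
      rw [Real.log_le_log_iff hn0 hyY] at h4
      have h5 : (n : ℝ) < m + Y + 1 := by linarith
      have h6 : n < m + Y + 1 := by exact_mod_cast h5
      omega
    · rintro ⟨h2, h3⟩
      refine ⟨⟨h2, by omega⟩, ?_⟩
      have hn0 : (0 : ℝ) < n := by exact_mod_cast (by omega : 0 < n)
      apply Real.log_le_log hn0
      have : (n : ℝ) ≤ m + Y := by exact_mod_cast h3
      linarith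
  rw [h1, h2, eq_sub_iff_add_eq]
  have h3 : Finset.Ioc x (m + Y) = Finset.Ioc x m ∪ Finset.Ioc m (m + Y) :=
    (Finset.Ioc_union_Ioc_eq_Ioc (by omega) (by omega)).symm
  rw [h3, Finset.sum_union, add_comm]
  rw [Finset.disjoint_left]
  intro n hn hn'
  rw [Finset.mem_Ioc] at hn hn'
  omega

/-- mean square of the increments of length at most `κ` at `v` -/
noncomputable def WH (κ v : ℝ) : ℝ≥0∞ := ∫⁻ k in Set.Icc 0 κ, ‖WG a x k v‖ₑ ^ 2

lemma enorm_sq_add (z w : ℂ) : ‖z - w‖ₑ ^ 2 ≤ 2 * ‖z‖ₑ ^ 2 + 2 * ‖w‖ₑ ^ 2 := by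
  have h1 : ‖z - w‖ ^ 2 ≤ 2 * ‖z‖ ^ 2 + 2 * ‖w‖ ^ 2 := by
    have h2 := norm_sub_le z w
    have h3 := norm_nonneg (z - w)
    have h4 := norm_nonneg z
    have h5 := norm_nonneg w
    nlinarith [sq_nonneg (‖z‖ - ‖w‖)]
  rw [← ofReal_norm, ← ofReal_norm, ← ofReal_norm,
    ← ENNReal.ofReal_pow (norm_nonneg _), ← ENNReal.ofReal_pow (norm_nonneg _),
    ← ENNReal.ofReal_pow (norm_nonneg _)]
  have h6 : (2 : ℝ≥0∞) = ENNReal.ofReal 2 := by norm_num
  rw [h6, ← ENNReal.ofReal_mul (by norm_num), ← ENNReal.ofReal_mul (by norm_num),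
    ← ENNReal.ofReal_add (by positivity) (by positivity)]
  exact ENNReal.ofReal_le_ofReal h1

/-- Saffari-Vaughan -/
lemma saffari {δ k0 u v : ℝ} (hv : v = u + δ) (hδ0 : 0 ≤ δ) (hδ : δ ≤ k0) :
    ENNReal.ofReal k0 * ‖WP a x v - WP a x u‖ₑ ^ 2 ≤ 2 * WH a x (2 * k0) u + 2 * WH a x (2 * k0) v := by
  have hm1 : Measurable (fun k : ℝ => ‖WG a x k u‖ₑ ^ 2) :=
    (((WG_meas a x).comp (measurable_id.prodMk measurable_const)).enorm).pow_const 2
  have hm2 : Measurable (fun k : ℝ => ‖WG a x k v‖ₑ ^ 2) :=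
    (((WG_meas a x).comp (measurable_id.prodMk measurable_const)).enorm).pow_const 2
  have hm3 : Measurable (fun k : ℝ => ‖WG a x (k - δ) v‖ₑ ^ 2) :=
    hm2.comp (measurable_id.sub_const δ)
  have h1 : ENNReal.ofReal k0 * ‖WP a x v - WP a x u‖ₑ ^ 2 =
      ∫⁻ _k in Set.Icc k0 (2 * k0), ‖WP a x v - WP a x u‖ₑ ^ 2 := by
    rw [setLIntegral_const, Real.volume_Icc, mul_comm]
    congr 2
    ring
  rw [h1]
  have h2 : ∀ k, ‖WP a x v - WP a x u‖ₑ ^ 2 ≤ 2 * ‖WG a x k u‖ₑ ^ 2 + 2 * ‖WG a x (k - δ) v‖ₑ ^ 2 := by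
    intro k
    have h3 : WP a x v - WP a x u = WG a x k u - WG a x (k - δ) v := by
      unfold WG
      have : v + (k - δ) = u + k := by rw [hv]; ring
      rw [this]
      ring
    rw [h3]
    exact enorm_sq_add _ _
  calc ∫⁻ _k in Set.Icc k0 (2 * k0), ‖WP a x v - WP a x u‖ₑ ^ 2
      ≤ ∫⁻ k in Set.Icc k0 (2 * k0), (2 * ‖WG a x k u‖ₑ ^ 2 + 2 * ‖WG a x (k - δ) v‖ₑ ^ 2) :=
        lintegral_mono fun k => h2 k
    _ = (∫⁻ k in Set.Icc k0 (2 * k0), 2 * ‖WG a x k u‖ₑ ^ 2) +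
        ∫⁻ k in Set.Icc k0 (2 * k0), 2 * ‖WG a x (k - δ) v‖ₑ ^ 2 :=
        lintegral_add_left (hm1.const_mul 2) _
    _ = 2 * (∫⁻ k in Set.Icc k0 (2 * k0), ‖WG a x k u‖ₑ ^ 2) +
        2 * ∫⁻ k in Set.Icc k0 (2 * k0), ‖WG a x (k - δ) v‖ₑ ^ 2 := by
        rw [lintegral_const_mul 2 hm1,
          lintegral_const_mul 2 hm3]
    _ ≤ 2 * WH a x (2 * k0) u + 2 * WH a x (2 * k0) v := by
        have hk0 : 0 ≤ k0 := hδ0.trans hδ
        gcongr
        · exact lintegral_mono_set (Set.Icc_subset_Icc_left hk0)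
        · unfold WH
          rw [← lintegral_indicator measurableSet_Icc, ← lintegral_indicator measurableSet_Icc]
          rw [← lintegral_sub_right_eq_self (μ := volume)
            (fun k => (Set.Icc 0 (2 * k0)).indicator (fun k => ‖WG a x k v‖ₑ ^ 2) k) δ]
          apply lintegral_mono
          intro k
          by_cases hk : k ∈ Set.Icc k0 (2 * k0)
          · have hk' : k - δ ∈ Set.Icc 0 (2 * k0) := by
              rw [Set.mem_Icc] at hk ⊢
              constructor <;> linarith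
            simp only [Set.indicator_of_mem hk, Set.indicator_of_mem hk', le_refl]
          · simp only [Set.indicator_of_notMem hk, zero_le]


lemma WH_meas (κ : ℝ) : Measurable (WH a x κ) := by
  unfold WH
  exact Measurable.lintegral_prod_right (f := fun (v k : ℝ) => ‖WG a x k v‖ₑ ^ 2)
    (((WG_meas a x).comp measurable_swap).enorm.pow_const 2)

/-- the sum over windows is at most the integral of `WH` -/
lemma step1 {Y : ℕ} (hx : 1 ≤ x) (hY1 : 1 ≤ Y) (hY : 10 * Y ≤ x) :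
    ENNReal.ofReal (2 * Y / x) * ∑ m ∈ Finset.Ioc x (2 * x), ‖∑ n ∈ Finset.Ioc m (m + Y), a n‖ₑ ^ 2 ≤
      4 * (ENNReal.ofReal (3 * x + 1) * ∫⁻ u, WH a x (2 * (2 * Y / x)) u) := by
  set k0 : ℝ := 2 * Y / x with hk0
  have hx0 : (0 : ℝ) < x := by exact_mod_cast hx
  have hYx : (10 : ℝ) * Y ≤ x := by exact_mod_cast hY
  have hY0 : (1 : ℝ) ≤ Y := by exact_mod_cast hY1
  set F : ℝ → ℝ≥0∞ := fun y => WH a x (2 * k0) (Real.log y) with hF
  have hFm : Measurable F := (WH_meas a x (2 * k0)).comp Real.measurable_log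
  -- pointwise
  have hpt : ∀ m ∈ Finset.Ioc x (2 * x), ENNReal.ofReal k0 * ‖∑ n ∈ Finset.Ioc m (m + Y), a n‖ₑ ^ 2 ≤
      ∫⁻ y in Set.Ico (m : ℝ) (m + 1), (2 * F y + 2 * F (y + Y)) := by
    intro m hm
    have hm' := Finset.mem_Ioc.mp hm
    have hvol : volume (Set.Ico (m : ℝ) (m + 1)) = 1 := by
      rw [Real.volume_Ico]; norm_num
    calc ENNReal.ofReal k0 * ‖∑ n ∈ Finset.Ioc m (m + Y), a n‖ₑ ^ 2
        = ∫⁻ _y in Set.Ico (m : ℝ) (m + 1), ENNReal.ofReal k0 * ‖∑ n ∈ Finset.Ioc m (m + Y), a n‖ₑ ^ 2 := by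
          rw [setLIntegral_const, hvol, mul_one]
      _ ≤ ∫⁻ y in Set.Ico (m : ℝ) (m + 1), (2 * F y + 2 * F (y + Y)) := by
          apply setLIntegral_mono' measurableSet_Ico
          intro y hy
          rw [Set.mem_Ico] at hy
          rw [window_eq a x (by omega) hm hy.1 hy.2]
          have hy0 : 0 < y := by
            have : (0 : ℝ) < m := by exact_mod_cast (by omega : 0 < m)
            linarith [hy.1]
          have hyx : (x : ℝ) ≤ y := by
            have : (x : ℝ) ≤ m := by exact_mod_cast (by omega : x ≤ m)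
            linarith [hy.1]
          have hdiv : Real.log (y + Y) - Real.log y ≤ Y / y := by
            rw [← Real.log_div (by positivity) hy0.ne']
            have h1 : (y + Y) / y = 1 + Y / y := by field_simp
            rw [h1]
            have := Real.log_le_sub_one_of_pos (show (0 : ℝ) < 1 + Y / y by positivity)
            linarith
          have hdiv2 : (Y : ℝ) / y ≤ k0 := by
            rw [hk0, div_le_div_iff₀ hy0 hx0]
            nlinarith
          refine saffari a x (δ := Real.log (y + Y) - Real.log y) (by ring) ?_ (hdiv.trans hdiv2)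
          have := Real.log_le_log hy0 (show y ≤ y + Y by linarith)
          linarith
  have hdisj : (Finset.Ioc x (2 * x) : Set ℕ).PairwiseDisjoint (fun m : ℕ => Set.Ico (m : ℝ) (m + 1)) := by
    intro m _ m' _ hne
    rw [Function.onFun, Set.disjoint_left]
    intro y hy hy'
    apply hne
    rw [Set.mem_Ico] at hy hy'
    have h1 : (m : ℝ) < m' + 1 := lt_of_le_of_lt hy.1 hy'.2
    have h2 : (m' : ℝ) < m + 1 := lt_of_le_of_lt hy'.1 hy.2
    have h3 : m < m' + 1 := by exact_mod_cast h1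
    have h4 : m' < m + 1 := by exact_mod_cast h2
    omega
  rw [Finset.mul_sum]
  refine (Finset.sum_le_sum hpt).trans ?_
  rw [← lintegral_biUnion_finset hdisj (fun m _ => measurableSet_Ico)]
  have hsub : (⋃ m ∈ Finset.Ioc x (2 * x), Set.Ico (m : ℝ) (m + 1)) ⊆ Set.Ico (x : ℝ) (2 * x + 1) := by
    intro y hy
    simp only [Set.mem_iUnion] at hy
    obtain ⟨m, hm, hy1, hy2⟩ := hy
    rw [Finset.mem_Ioc] at hm
    have h1 : (x : ℝ) ≤ m := by exact_mod_cast hm.1.le
    have h2 : (m : ℝ) ≤ 2 * x := by exact_mod_cast hm.2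
    exact ⟨by linarith, by linarith⟩
  refine (lintegral_mono_set hsub).trans ?_
  rw [lintegral_add_left (hFm.const_mul 2)]
  have e1 : ∫⁻ y in Set.Ico (x : ℝ) (2 * x + 1), 2 * F y ≤ 2 * ∫⁻ y in Set.Ico (x : ℝ) (3 * x + 1), F y := by
    rw [lintegral_const_mul 2 hFm]
    refine mul_le_mul' le_rfl (lintegral_mono_set ?_)
    apply Set.Ico_subset_Ico_right
    linarith
  have e2 : ∫⁻ y in Set.Ico (x : ℝ) (2 * x + 1), 2 * F (y + Y) ≤ 2 * ∫⁻ y in Set.Ico (x : ℝ) (3 * x + 1), F y := by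
    have hFm' : Measurable (fun y : ℝ => F (y + Y)) := hFm.comp (measurable_id.add_const _)
    rw [lintegral_const_mul 2 hFm']
    refine mul_le_mul' le_rfl ?_
    rw [← lintegral_indicator measurableSet_Ico, ← lintegral_indicator measurableSet_Ico]
    rw [← lintegral_add_right_eq_self (μ := volume)
      (fun k => (Set.Ico (x : ℝ) (3 * x + 1)).indicator F k) (Y : ℝ)]
    apply lintegral_mono
    intro y
    by_cases hy : y ∈ Set.Ico (x : ℝ) (2 * x + 1)
    · have hy' : y + Y ∈ Set.Ico (x : ℝ) (3 * x + 1) := by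
        rw [Set.mem_Ico] at hy ⊢
        constructor <;> linarith
      simp only [Set.indicator_of_mem hy, Set.indicator_of_mem hy', le_refl]
    · simp only [Set.indicator_of_notMem hy, zero_le]
  have e3 : ∫⁻ y in Set.Ico (x : ℝ) (3 * x + 1), F y ≤
      ENNReal.ofReal (3 * x + 1) * ∫⁻ u, WH a x (2 * k0) u := by
    have himg : Set.Ico (x : ℝ) (3 * x + 1) = Real.exp '' (Set.Ico (Real.log x) (Real.log (3 * x + 1))) := by
      ext y
      rw [Set.mem_image]
      constructor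
      · intro hy
        have hy0 : 0 < y := lt_of_lt_of_le hx0 hy.1
        refine ⟨Real.log y, ⟨Real.log_le_log hx0 hy.1, Real.log_lt_log hy0 hy.2⟩, Real.exp_log hy0⟩
      · rintro ⟨u, hu, rfl⟩
        refine ⟨?_, ?_⟩
        · rw [← Real.log_le_iff_le_exp hx0]; exact hu.1
        · rw [← Real.lt_log_iff_exp_lt (by positivity)]; exact hu.2
    rw [himg, lintegral_image_eq_lintegral_abs_deriv_mul measurableSet_Ico
      (fun u _ => (Real.hasDerivAt_exp u).hasDerivWithinAt) Real.exp_injective.injOn]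
    calc ∫⁻ u in Set.Ico (Real.log x) (Real.log (3 * x + 1)), ENNReal.ofReal |Real.exp u| * F (Real.exp u)
        ≤ ∫⁻ u in Set.Ico (Real.log x) (Real.log (3 * x + 1)), ENNReal.ofReal (3 * x + 1) * WH a x (2 * k0) u := by
          apply setLIntegral_mono' measurableSet_Ico
          intro u hu
          simp only [hF, Real.log_exp]
          gcongr
          rw [abs_of_pos (Real.exp_pos u)]
          have h1 := Real.exp_lt_exp.mpr hu.2
          rw [Real.exp_log (by positivity)] at h1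
          exact h1.le
      _ ≤ ∫⁻ u, ENNReal.ofReal (3 * x + 1) * WH a x (2 * k0) u := setLIntegral_le_lintegral _ _
      _ = _ := lintegral_const_mul _ (WH_meas a x (2 * k0))
  calc _ ≤ 2 * (∫⁻ y in Set.Ico (x : ℝ) (3 * x + 1), F y) + 2 * ∫⁻ y in Set.Ico (x : ℝ) (3 * x + 1), F y :=
        add_le_add e1 e2
    _ = 4 * ∫⁻ y in Set.Ico (x : ℝ) (3 * x + 1), F y := by ring
    _ ≤ _ := by gcongr


lemma step2 {κ : ℝ} {M : ℝ≥0∞} (hM : ∀ k, 0 ≤ k → k ≤ κ → ∫⁻ u, ‖WG a x k u‖ₑ ^ 2 ≤ M) :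
    ∫⁻ u, WH a x κ u ≤ ENNReal.ofReal κ * M := by
  unfold WH
  rw [lintegral_lintegral_swap]
  · calc ∫⁻ k in Set.Icc 0 κ, ∫⁻ u, ‖WG a x k u‖ₑ ^ 2 ≤ ∫⁻ _k in Set.Icc 0 κ, M := by
          apply setLIntegral_mono' measurableSet_Icc
          intro k hk
          exact hM k hk.1 hk.2
      _ = ENNReal.ofReal κ * M := by
          rw [setLIntegral_const, Real.volume_Icc, sub_zero, mul_comm]
  · exact (((WG_meas a x).comp measurable_swap).enorm.pow_const 2).aemeasurable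

lemma WG_eq {k : ℝ} (hk : 0 ≤ k) : WG a x k = fun u => ∑ n ∈ Finset.Ioc x (9 * x),
    (Set.Ico (Real.log n - k) (Real.log n)).indicator (fun _ => a n) u := by
  ext u
  unfold WG WP
  rw [← Finset.sum_sub_distrib]
  apply Finset.sum_congr rfl
  intro n _
  by_cases h1 : Real.log n ≤ u
  · rw [if_pos h1, if_pos (by linarith), sub_self, Set.indicator_of_notMem]
    intro h
    exact absurd h.2 (not_lt.mpr h1)
  · rw [if_neg h1]
    by_cases h2 : Real.log n ≤ u + k
    · rw [if_pos h2, sub_zero, Set.indicator_of_mem]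
      exact ⟨by linarith, not_le.mp h1⟩
    · rw [if_neg h2, sub_zero, Set.indicator_of_notMem]
      intro h
      apply h2
      linarith [h.1]

lemma WG_memLp {k : ℝ} (hk : 0 ≤ k) (p : ℝ≥0∞) : MemLp (WG a x k) p := by
  rw [WG_eq a x hk]
  apply memLp_finsetSum
  intro n _
  apply memLp_indicator_const p measurableSet_Ico
  right
  rw [Real.volume_Ico]
  exact ENNReal.ofReal_ne_top

/-- the Fourier transform of an interval -/
noncomputable def Ww (k ξ : ℝ) : ℂ := ∫ v in (-k)..0, Complex.exp (((-2 * Real.pi * v * ξ : ℝ) : ℂ) * Complex.I)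

lemma fourier_WG {k : ℝ} (hk : 0 ≤ k) (ξ : ℝ) :
    𝓕 (WG a x k) ξ = WA a x (2 * Real.pi * ξ) * Ww k ξ := by
  rw [Real.fourier_real_eq_integral_exp_smul, WG_eq a x hk]
  have h1 : ∀ v : ℝ, Complex.exp (((-2 * Real.pi * v * ξ : ℝ) : ℂ) * Complex.I) •
      ∑ n ∈ Finset.Ioc x (9 * x), (Set.Ico (Real.log n - k) (Real.log n)).indicator (fun _ => a n) v =
      ∑ n ∈ Finset.Ioc x (9 * x), (Set.Ico (Real.log n - k) (Real.log n)).indicator
        (fun v => Complex.exp (((-2 * Real.pi * v * ξ : ℝ) : ℂ) * Complex.I) * a n) v := by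
    intro v
    rw [Finset.smul_sum]
    apply Finset.sum_congr rfl
    intro n _
    by_cases h : v ∈ Set.Ico (Real.log n - k) (Real.log n)
    · rw [Set.indicator_of_mem h, Set.indicator_of_mem h, smul_eq_mul]
    · rw [Set.indicator_of_notMem h, Set.indicator_of_notMem h, smul_zero]
  simp_rw [h1]
  rw [integral_finsetSum]
  · unfold WA
    rw [Finset.sum_mul]
    apply Finset.sum_congr rfl
    intro n hn
    have hn0 : n ≠ 0 := by
      rw [Finset.mem_Ioc] at hn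
      omega
    rw [integral_indicator measurableSet_Ico, integral_Ico_eq_integral_Ioc,
      ← intervalIntegral.integral_of_le (by linarith), intervalIntegral.integral_mul_const]
    have h2 : nt (2 * Real.pi * ξ) n =
        Complex.exp (((-2 * Real.pi * Real.log n * ξ : ℝ) : ℂ) * Complex.I) := by
      unfold nt
      have hnc : (n : ℂ) ≠ 0 := by exact_mod_cast hn0
      rw [Complex.cpow_def_of_ne_zero hnc, ← Complex.natCast_log]
      congr 1
      push_cast
      ring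
    have h3 : ∫ v in (Real.log n - k)..(Real.log n), Complex.exp (((-2 * Real.pi * v * ξ : ℝ) : ℂ) * Complex.I)
        = nt (2 * Real.pi * ξ) n * Ww k ξ := by
      unfold Ww
      rw [h2, ← intervalIntegral.integral_const_mul]
      have h4 := intervalIntegral.integral_comp_add_right (a := -k) (b := 0)
        (fun v : ℝ => Complex.exp (((-2 * Real.pi * v * ξ : ℝ) : ℂ) * Complex.I)) (Real.log n)
      rw [show Real.log n - k = -k + Real.log n by ring]
      rw [zero_add] at h4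
      rw [← h4]
      apply intervalIntegral.integral_congr
      intro v _
      simp only
      rw [← Complex.exp_add]
      congr 1
      push_cast
      ring
    rw [h3]
    ring
  · intro n _
    rw [integrable_indicator_iff measurableSet_Ico]
    apply (Continuous.integrableOn_Icc ?_).mono_set Set.Ico_subset_Icc_self
    fun_prop

lemma Ww_le {k ξ : ℝ} (hk : 0 ≤ k) : ‖Ww k ξ‖ ≤ k := by
  unfold Ww
  have := intervalIntegral.norm_integral_le_of_norm_le_const (a := -k) (b := 0) (C := 1)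
    (f := fun v : ℝ => Complex.exp (((-2 * Real.pi * v * ξ : ℝ) : ℂ) * Complex.I)) (by
      intro v _
      rw [Complex.norm_exp_ofReal_mul_I])
  rw [sub_neg_eq_add, zero_add, one_mul, abs_of_nonneg hk] at this
  exact this

lemma Ww_le' {k ξ : ℝ} (hξ : ξ ≠ 0) : ‖Ww k ξ‖ ≤ 1 / (Real.pi * |ξ|) := by
  unfold Ww
  have hc : (((-2 * Real.pi * ξ : ℝ) : ℂ) * Complex.I) ≠ 0 := by
    apply mul_ne_zero _ Complex.I_ne_zero
    have : -2 * Real.pi * ξ ≠ 0 := by
      have := Real.pi_ne_zero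
      simp [this, hξ]
    exact_mod_cast this
  have h1 : ∀ v : ℝ, Complex.exp (((-2 * Real.pi * v * ξ : ℝ) : ℂ) * Complex.I) =
      Complex.exp ((((-2 * Real.pi * ξ : ℝ) : ℂ) * Complex.I) * v) := by
    intro v
    congr 1
    push_cast
    ring
  simp_rw [h1]
  rw [integral_exp_mul_complex hc, norm_div, norm_mul, Complex.norm_I, mul_one, Complex.norm_real,
    Real.norm_eq_abs]
  have h2 : ∀ v : ℝ, ‖Complex.exp ((((-2 * Real.pi * ξ : ℝ) : ℂ) * Complex.I) * v)‖ = 1 := by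
    intro v
    rw [← h1, Complex.norm_exp_ofReal_mul_I]
  have h3 := norm_sub_le (Complex.exp ((((-2 * Real.pi * ξ : ℝ) : ℂ) * Complex.I) * ((0 : ℝ) : ℂ)))
    (Complex.exp ((((-2 * Real.pi * ξ : ℝ) : ℂ) * Complex.I) * ((-k : ℝ) : ℂ)))
  rw [h2, h2] at h3
  have h4 : |(-2 * Real.pi * ξ)| = 2 * (Real.pi * |ξ|) := by
    rw [abs_mul, abs_mul, abs_neg, abs_of_pos Real.pi_pos]
    norm_num
    ring
  rw [h4]
  have h5 : 0 < Real.pi * |ξ| := mul_pos Real.pi_pos (abs_pos.mpr hξ)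
  rw [div_le_div_iff₀ (by positivity) h5]
  nlinarith


lemma WA_cont : Continuous (WA a x) := by
  unfold WA nt
  apply continuous_finsetSum
  intro n hn
  have hn0 : (n : ℂ) ≠ 0 := by
    rw [Finset.mem_Ioc] at hn
    exact_mod_cast (by omega : n ≠ 0)
  apply Continuous.mul continuous_const
  apply Continuous.const_cpow
  · fun_prop
  · exact Or.inl hn0

lemma enorm_sq_eq (z : ℂ) : ‖z‖ₑ ^ 2 = ENNReal.ofReal (‖z‖ ^ 2) := by
  rw [← ofReal_norm, ← ENNReal.ofReal_pow (norm_nonneg _)]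

lemma piece_eq {T1 T2 : ℝ} (h : T1 ≤ T2) :
    ∫⁻ ξ in Set.Icc (T1 / (2 * Real.pi)) (T2 / (2 * Real.pi)), ‖WA a x (2 * Real.pi * ξ)‖ₑ ^ 2 =
      ENNReal.ofReal ((1 / (2 * Real.pi)) * ∫ τ in T1..T2, ‖WA a x τ‖ ^ 2) := by
  have hpi : 0 < 2 * Real.pi := by positivity
  have hc : Continuous (fun ξ : ℝ => ‖WA a x (2 * Real.pi * ξ)‖ ^ 2) :=
    ((WA_cont a x).comp (continuous_const.mul continuous_id)).norm.pow 2
  have h12 : T1 / (2 * Real.pi) ≤ T2 / (2 * Real.pi) := by gcongr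
  simp_rw [enorm_sq_eq]
  rw [← ofReal_integral_eq_lintegral_ofReal hc.integrableOn_Icc
    (Filter.Eventually.of_forall fun ξ => by positivity)]
  congr 1
  rw [integral_Icc_eq_integral_Ioc, ← intervalIntegral.integral_of_le h12]
  have h1 := intervalIntegral.integral_comp_mul_left (a := T1 / (2 * Real.pi))
    (b := T2 / (2 * Real.pi)) (fun τ => ‖WA a x τ‖ ^ 2) hpi.ne'
  rw [h1, smul_eq_mul, one_div]
  congr 2 <;> field_simp

lemma mean_bound {T1 T2 : ℝ} (h : T1 ≤ T2) :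
    ∫ τ in T1..T2, ‖WA a x τ‖ ^ 2 ≤ (T2 - T1 + 72 * x * (1 + Real.log (9 * x))) *
      ∑ n ∈ Finset.Ioc x (9 * x), ‖a n‖ ^ 2 := by
  have h1 := H370.mean_value (fun n => if x < n then a n else 0) (9 * x) T1 T2 h
  have h2 : ∀ t : ℝ, ∑ n ∈ Finset.Icc 1 (9 * x), (if x < n then a n else 0) * (n : ℂ) ^ (-(t : ℂ) * Complex.I)
      = WA a x t := by
    intro t
    unfold WA nt
    simp_rw [ite_mul, zero_mul]
    rw [← Finset.sum_filter]
    apply Finset.sum_congr _ (fun _ _ => rfl)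
    ext n
    simp only [Finset.mem_filter, Finset.mem_Icc, Finset.mem_Ioc]
    omega
  have h3 : ∑ n ∈ Finset.Icc 1 (9 * x), ‖(if x < n then a n else 0)‖ ^ 2 =
      ∑ n ∈ Finset.Ioc x (9 * x), ‖a n‖ ^ 2 := by
    have : ∀ n, ‖(if x < n then a n else 0)‖ ^ 2 = if x < n then ‖a n‖ ^ 2 else 0 := by
      intro n
      split_ifs <;> simp
    simp_rw [this]
    rw [← Finset.sum_filter]
    apply Finset.sum_congr _ (fun _ _ => rfl)
    ext n
    simp only [Finset.mem_filter, Finset.mem_Icc, Finset.mem_Ioc]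
    omega
  simp_rw [h2] at h1
  rw [h3] at h1
  refine h1.trans (le_of_eq ?_)
  push_cast
  ring


lemma sum_geo {c : ℝ} (hc : 0 ≤ c) :
    ∑' j : ℕ, ENNReal.ofReal (c * (1 / 2) ^ j) = ENNReal.ofReal (2 * c) := by
  have hs : Summable (fun j : ℕ => c * (1 / 2 : ℝ) ^ j) :=
    (summable_geometric_of_lt_one (by norm_num) (by norm_num)).mul_left c
  rw [← ENNReal.ofReal_tsum_of_nonneg (fun j => by positivity) hs, tsum_mul_left,
    tsum_geometric_of_lt_one (by norm_num) (by norm_num)]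
  congr 1
  ring

/-- the mean square of the increments of length `k ≤ κ` -/
lemma step3 {k κ T : ℝ} (hx : 1 ≤ x) (hk : 0 ≤ k) (hkκ : k ≤ κ) (hT : 1 ≤ T) :
    ∫⁻ u, ‖WG a x k u‖ₑ ^ 2 ≤ ENNReal.ofReal (κ ^ 2 * (∫ τ in (-T)..T, ‖WA a x τ‖ ^ 2) +
      16 * ((1 / T + 72 * x * (1 + Real.log (9 * x)) / T ^ 2) *
        ∑ n ∈ Finset.Ioc x (9 * x), ‖a n‖ ^ 2)) := by
  set S : ℝ := ∑ n ∈ Finset.Ioc x (9 * x), ‖a n‖ ^ 2 with hS
  set E : ℝ := 72 * x * (1 + Real.log (9 * x)) with hE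
  have hx1 : (1 : ℝ) ≤ x := by exact_mod_cast hx
  have hlog : 0 ≤ Real.log (9 * x) := Real.log_nonneg (by linarith)
  have hE0 : 0 ≤ E := by positivity
  have hS0 : 0 ≤ S := Finset.sum_nonneg fun _ _ => by positivity
  have hpi := Real.pi_pos
  have hpi3 := Real.pi_gt_three
  have hT0 : 0 < T := by linarith
  have hpl := Pool.Agent.H153R4.plancherel (WG a x k)
    (memLp_one_iff_integrable.mp (WG_memLp a x hk 1)) (WG_memLp a x hk 2)
  rw [← hpl]
  set f : ℝ → ℝ≥0∞ := fun ξ => ‖𝓕 (WG a x k) ξ‖ₑ ^ 2 with hf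
  have hfe : ∀ ξ, f ξ = ‖WA a x (2 * Real.pi * ξ)‖ₑ ^ 2 * ‖Ww k ξ‖ₑ ^ 2 := by
    intro ξ
    simp only [hf]
    rw [fourier_WG a x hk, enorm_mul, mul_pow]
  have hWAm : Measurable (fun ξ : ℝ => ‖WA a x (2 * Real.pi * ξ)‖ₑ ^ 2) :=
    (((WA_cont a x).comp (continuous_const.mul continuous_id)).measurable.enorm).pow_const 2
  -- a piece with a bound for the weight
  have hpiece : ∀ (T1 T2 w : ℝ), T1 ≤ T2 → 0 ≤ w →
      (∀ ξ, T1 / (2 * Real.pi) ≤ ξ → ξ ≤ T2 / (2 * Real.pi) → ‖Ww k ξ‖ ≤ w) →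
      ∫⁻ ξ in Set.Icc (T1 / (2 * Real.pi)) (T2 / (2 * Real.pi)), f ξ ≤
        ENNReal.ofReal (w ^ 2 * ∫ τ in T1..T2, ‖WA a x τ‖ ^ 2) := by
    intro T1 T2 w h12 hw hb
    have hQ : 0 ≤ ∫ τ in T1..T2, ‖WA a x τ‖ ^ 2 :=
      intervalIntegral.integral_nonneg h12 fun _ _ => by positivity
    calc ∫⁻ ξ in Set.Icc (T1 / (2 * Real.pi)) (T2 / (2 * Real.pi)), f ξ
        ≤ ∫⁻ ξ in Set.Icc (T1 / (2 * Real.pi)) (T2 / (2 * Real.pi)),
          ENNReal.ofReal (w ^ 2) * ‖WA a x (2 * Real.pi * ξ)‖ₑ ^ 2 := by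
          apply setLIntegral_mono' measurableSet_Icc
          intro ξ hξ
          rw [hfe, mul_comm, enorm_sq_eq (Ww k ξ)]
          gcongr
          exact hb ξ hξ.1 hξ.2
      _ = ENNReal.ofReal (w ^ 2) * ENNReal.ofReal ((1 / (2 * Real.pi)) * ∫ τ in T1..T2, ‖WA a x τ‖ ^ 2) := by
          rw [lintegral_const_mul _ hWAm, piece_eq a x h12]
      _ ≤ ENNReal.ofReal (w ^ 2 * ∫ τ in T1..T2, ‖WA a x τ‖ ^ 2) := by
          rw [← ENNReal.ofReal_mul (by positivity)]
          apply ENNReal.ofReal_le_ofReal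
          have h1 : 1 / (2 * Real.pi) ≤ 1 := by
            rw [div_le_one (by positivity)]
            linarith
          have h2 : (1 / (2 * Real.pi)) * ∫ τ in T1..T2, ‖WA a x τ‖ ^ 2 ≤ ∫ τ in T1..T2, ‖WA a x τ‖ ^ 2 :=
            mul_le_of_le_one_left hQ h1
          exact mul_le_mul_of_nonneg_left h2 (by positivity)
  -- the weight for large frequencies
  have hw : ∀ (j : ℕ) (ξ : ℝ), 2 ^ j * T / (2 * Real.pi) ≤ |ξ| → ‖Ww k ξ‖ ≤ 2 / (2 ^ j * T) := by
    intro j ξ hξ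
    have h0 : 0 < 2 ^ j * T / (2 * Real.pi) := by positivity
    have hξ0 : ξ ≠ 0 := by
      intro h
      rw [h, abs_zero] at hξ
      linarith
    refine (Ww_le' hξ0).trans ?_
    have h1 : 0 < |ξ| := lt_of_lt_of_le h0 hξ
    rw [div_le_div_iff₀ (by positivity) (by positivity)]
    rw [div_le_iff₀ (by positivity)] at hξ
    linarith
  have hval : ∀ j : ℕ, (2 / (2 ^ j * T)) ^ 2 * ((2 ^ j * T + E) * S) ≤
      4 * ((1 / T + E / T ^ 2) * S) * (1 / 2) ^ j := by
    intro j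
    have hj1 : (1 : ℝ) ≤ 2 ^ j := one_le_pow₀ (by norm_num)
    have e1 : (2 / (2 ^ j * T)) ^ 2 * ((2 ^ j * T + E) * S) =
        4 * ((1 / T * (1 / 2) ^ j + E / T ^ 2 * ((1 / 2) ^ j * (1 / 2) ^ j)) * S) := by
      rw [one_div_pow]
      field_simp
      ring
    rw [e1]
    have h2 : ((1 : ℝ) / 2) ^ j ≤ 1 := pow_le_one₀ (by norm_num) (by norm_num)
    have h3 : (0 : ℝ) ≤ (1 / 2) ^ j := by positivity
    have h4 : ((1 : ℝ) / 2) ^ j * (1 / 2) ^ j ≤ (1 / 2) ^ j := by nlinarith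
    have h5 : E / T ^ 2 * ((1 / 2) ^ j * (1 / 2) ^ j) ≤ E / T ^ 2 * (1 / 2) ^ j :=
      mul_le_mul_of_nonneg_left h4 (by positivity)
    have h6 : (1 / T * (1 / 2) ^ j + E / T ^ 2 * ((1 / 2) ^ j * (1 / 2) ^ j)) * S ≤
        (1 / T * (1 / 2) ^ j + E / T ^ 2 * (1 / 2) ^ j) * S := by gcongr
    nlinarith
  have hcov : (Set.univ : Set ℝ) ⊆ Set.Icc (-T / (2 * Real.pi)) (T / (2 * Real.pi)) ∪
      ((⋃ j : ℕ, Set.Icc (2 ^ j * T / (2 * Real.pi)) (2 ^ (j + 1) * T / (2 * Real.pi))) ∪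
       (⋃ j : ℕ, Set.Icc (-(2 ^ (j + 1) * T) / (2 * Real.pi)) (-(2 ^ j * T) / (2 * Real.pi)))) := by
    intro ξ _
    have hT'0 : 0 < T / (2 * Real.pi) := by positivity
    by_cases h1 : |ξ| ≤ T / (2 * Real.pi)
    · left
      rw [abs_le] at h1
      refine ⟨?_, h1.2⟩
      rw [neg_div]
      exact h1.1
    · right
      push Not at h1
      have h2 : 1 ≤ |ξ| / (T / (2 * Real.pi)) := by
        rw [le_div_iff₀ hT'0]
        linarith
      obtain ⟨j, hj1, hj2⟩ := exists_nat_pow_near h2 (by norm_num : (1 : ℝ) < 2)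
      rw [le_div_iff₀ hT'0] at hj1
      rw [div_lt_iff₀ hT'0] at hj2
      rw [mul_div_assoc'] at hj1 hj2
      rcases le_or_gt 0 ξ with h3 | h3
      · left
        rw [abs_of_nonneg h3] at hj1 hj2
        exact Set.mem_iUnion.mpr ⟨j, hj1, hj2.le⟩
      · right
        rw [abs_of_neg h3] at hj1 hj2
        refine Set.mem_iUnion.mpr ⟨j, ?_, ?_⟩
        · rw [neg_div]; linarith
        · rw [neg_div]; linarith
  set c : ℝ := 4 * ((1 / T + E / T ^ 2) * S) with hc
  have hc0 : 0 ≤ c := by positivity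
  have hmain : ∫⁻ ξ in Set.Icc (-T / (2 * Real.pi)) (T / (2 * Real.pi)), f ξ ≤
      ENNReal.ofReal (κ ^ 2 * ∫ τ in (-T)..T, ‖WA a x τ‖ ^ 2) :=
    hpiece (-T) T κ (by linarith) (hk.trans hkκ) (fun ξ _ _ => (Ww_le hk).trans hkκ)
  have htail1 : ∫⁻ ξ in ⋃ j : ℕ, Set.Icc (2 ^ j * T / (2 * Real.pi)) (2 ^ (j + 1) * T / (2 * Real.pi)), f ξ
      ≤ ENNReal.ofReal (2 * c) := by
    refine (lintegral_iUnion_le _ _).trans ?_
    rw [← sum_geo hc0]
    apply ENNReal.tsum_le_tsum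
    intro j
    have hle : 2 ^ j * T ≤ 2 ^ (j + 1) * T := by
      have : (0 : ℝ) ≤ 2 ^ j * T := by positivity
      rw [pow_succ]; linarith
    refine (hpiece (2 ^ j * T) (2 ^ (j + 1) * T) (2 / (2 ^ j * T)) hle (by positivity) ?_).trans ?_
    · intro ξ h1 _
      exact hw j ξ (h1.trans (le_abs_self ξ))
    · apply ENNReal.ofReal_le_ofReal
      refine le_trans ?_ (hval j)
      have := mean_bound a x hle
      rw [show 2 ^ (j + 1) * T - 2 ^ j * T = 2 ^ j * T by rw [pow_succ]; ring] at this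
      exact mul_le_mul_of_nonneg_left this (by positivity)
  have htail2 : ∫⁻ ξ in ⋃ j : ℕ, Set.Icc (-(2 ^ (j + 1) * T) / (2 * Real.pi)) (-(2 ^ j * T) / (2 * Real.pi)),
      f ξ ≤ ENNReal.ofReal (2 * c) := by
    refine (lintegral_iUnion_le _ _).trans ?_
    rw [← sum_geo hc0]
    apply ENNReal.tsum_le_tsum
    intro j
    have hle : -(2 ^ (j + 1) * T) ≤ -(2 ^ j * T) := by
      have : (0 : ℝ) ≤ 2 ^ j * T := by positivity
      rw [pow_succ]; linarith
    refine (hpiece (-(2 ^ (j + 1) * T)) (-(2 ^ j * T)) (2 / (2 ^ j * T)) hle (by positivity) ?_).trans ?_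
    · intro ξ _ h1
      refine hw j ξ ?_
      rw [neg_div] at h1
      exact le_trans (by linarith) (neg_le_abs ξ)
    · apply ENNReal.ofReal_le_ofReal
      refine le_trans ?_ (hval j)
      have := mean_bound a x hle
      rw [show -(2 ^ j * T) - -(2 ^ (j + 1) * T) = 2 ^ j * T by rw [pow_succ]; ring] at this
      exact mul_le_mul_of_nonneg_left this (by positivity)
  calc ∫⁻ ξ, f ξ = ∫⁻ ξ in Set.univ, f ξ := by rw [Measure.restrict_univ]
    _ ≤ _ := lintegral_mono_set hcov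
    _ ≤ _ := lintegral_union_le _ _ _
    _ ≤ ENNReal.ofReal (κ ^ 2 * ∫ τ in (-T)..T, ‖WA a x τ‖ ^ 2) + (ENNReal.ofReal (2 * c) + ENNReal.ofReal (2 * c)) :=
        add_le_add hmain ((lintegral_union_le _ _ _).trans (add_le_add htail1 htail2))
    _ = _ := by
        have hQ : 0 ≤ ∫ τ in (-T)..T, ‖WA a x τ‖ ^ 2 :=
          intervalIntegral.integral_nonneg (by linarith) fun _ _ => by positivity
        rw [← ENNReal.ofReal_add (by positivity) (by positivity),
          ← ENNReal.ofReal_add (by positivity) (by positivity)]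
        congr 1
        rw [hc]
        ring

end

theorem win : S_WIN := by
  refine ⟨10 ^ 6, by norm_num, ?_⟩
  intro a x Y T hY1 hY hT
  have hx : 1 ≤ x := by omega
  have hx0 : (0 : ℝ) < x := by exact_mod_cast hx
  have hx1 : (1 : ℝ) ≤ x := by exact_mod_cast hx
  have hY0 : (0 : ℝ) < Y := by exact_mod_cast hY1
  have hT0 : 0 < T := by linarith
  set S : ℝ := ∑ n ∈ Finset.Ioc x (9 * x), ‖a n‖ ^ 2 with hS
  have hS0 : 0 ≤ S := Finset.sum_nonneg fun _ _ => by positivity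
  set Q : ℝ := ∫ τ in (-T)..T, ‖WA a x τ‖ ^ 2 with hQ
  have hQ0 : 0 ≤ Q := intervalIntegral.integral_nonneg (by linarith) fun _ _ => by positivity
  set k0 : ℝ := 2 * Y / x with hk0
  have hk00 : 0 < k0 := by positivity
  set W : ℝ := ∑ m ∈ Finset.Ioc x (2 * x), ‖∑ n ∈ Finset.Ioc m (m + Y), a n‖ ^ 2 with hW
  set M : ℝ := (2 * k0) ^ 2 * Q + 16 * ((1 / T + 72 * x * (1 + Real.log (9 * x)) / T ^ 2) * S) with hM
  have hlogx : 0 ≤ Real.log x := Real.log_nonneg hx1
  have hlog9 : Real.log (9 * x) ≤ 3 + Real.log x := by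
    rw [Real.log_mul (by norm_num) hx0.ne']
    have h1 : Real.log 9 ≤ 3 := by
      have : Real.log 9 = 2 * Real.log 3 := by
        rw [show (9 : ℝ) = 3 ^ 2 by norm_num, Real.log_pow]; norm_num
      have h3 : Real.log 3 ≤ 3 - 1 := Real.log_le_sub_one_of_pos (by norm_num)
      have h4 : Real.log 3 ≤ 1.5 := by
        rw [Real.log_le_iff_le_exp (by norm_num)]
        have h5 : Real.exp 1.5 = Real.exp 1 * Real.exp 0.5 := by rw [← Real.exp_add]; norm_num
        have h6 := Real.exp_one_gt_d9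
        have h7 := Real.add_one_le_exp (0.5 : ℝ)
        rw [h5]
        nlinarith [Real.exp_pos 0.5]
      linarith
    linarith
  have hlog90 : 0 ≤ Real.log (9 * x) := Real.log_nonneg (by linarith)
  have hM0 : 0 ≤ M := by positivity
  have h1 := step1 a x hx hY1 hY
  rw [← hk0] at h1
  have h2 := step2 a x (κ := 2 * k0) (M := ENNReal.ofReal M)
    (fun k hk hk' => step3 a x hx hk hk' hT)
  have h3 : ENNReal.ofReal (k0 * W) ≤ ENNReal.ofReal (4 * ((3 * x + 1) * (2 * k0 * M))) := by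
    calc ENNReal.ofReal (k0 * W) = ENNReal.ofReal k0 *
          ∑ m ∈ Finset.Ioc x (2 * x), ‖∑ n ∈ Finset.Ioc m (m + Y), a n‖ₑ ^ 2 := by
          rw [ENNReal.ofReal_mul hk00.le, hW, ENNReal.ofReal_sum_of_nonneg (fun _ _ => by positivity)]
          congr 1
          exact Finset.sum_congr rfl fun _ _ => (enorm_sq_eq _).symm
      _ ≤ 4 * (ENNReal.ofReal (3 * x + 1) * ∫⁻ u, WH a x (2 * k0) u) := h1
      _ ≤ 4 * (ENNReal.ofReal (3 * x + 1) * (ENNReal.ofReal (2 * k0) * ENNReal.ofReal M)) := by gcongr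
      _ = _ := by
          rw [← ENNReal.ofReal_mul (by positivity), ← ENNReal.ofReal_mul (by positivity),
            show (4 : ℝ≥0∞) = ENNReal.ofReal 4 by norm_num, ← ENNReal.ofReal_mul (by norm_num)]
  rw [ENNReal.ofReal_le_ofReal_iff (by positivity)] at h3
  have h4 : W ≤ 32 * x * M := by
    have h5 : k0 * W ≤ k0 * (32 * x * M) := by
      refine h3.trans ?_
      have h6 : 0 ≤ k0 * M := by positivity
      nlinarith
    exact le_of_mul_le_mul_left h5 hk00
  refine h4.trans ?_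
  have e1 : 32 * (x : ℝ) * M = 512 * ((Y : ℝ) ^ 2 / x) * Q +
      512 * ((x / T + 72 * (x : ℝ) ^ 2 * (1 + Real.log (9 * x)) / T ^ 2) * S) := by
    rw [hM, hk0]
    field_simp
    ring
  rw [e1]
  have e2 : 512 * ((Y : ℝ) ^ 2 / x) * Q ≤ 10 ^ 6 * ((Y : ℝ) ^ 2 / x) * Q := by
    have : 0 ≤ ((Y : ℝ) ^ 2 / x) * Q := by positivity
    nlinarith
  have e3 : 72 * (x : ℝ) ^ 2 * (1 + Real.log (9 * x)) / T ^ 2 ≤ 288 * ((x : ℝ) ^ 2 * (1 + Real.log x) / T ^ 2) := by
    rw [mul_div_assoc', div_le_div_iff_of_pos_right (by positivity)]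
    have : 0 ≤ (x : ℝ) ^ 2 := by positivity
    nlinarith
  have e4 : 512 * ((x / T + 72 * (x : ℝ) ^ 2 * (1 + Real.log (9 * x)) / T ^ 2) * S) ≤
      10 ^ 6 * (x / T + (x : ℝ) ^ 2 * (1 + Real.log x) / T ^ 2) * S := by
    have f1 : (x / T + 72 * (x : ℝ) ^ 2 * (1 + Real.log (9 * x)) / T ^ 2) * S ≤
        (x / T + 288 * ((x : ℝ) ^ 2 * (1 + Real.log x) / T ^ 2)) * S := by gcongr
    have f2 : 0 ≤ (x / T) * S := by positivity
    have f3 : 0 ≤ ((x : ℝ) ^ 2 * (1 + Real.log x) / T ^ 2) * S := by positivity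
    nlinarith
  exact add_le_add e2 e4

end Pool.Agent.V5helper43.CR
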